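import Pool.Agent.DBX.CMD.Stmts
set_option autoImplicit false

/-! # MP_2c751f_ag, squad DBX, area CMD, module CHN -/

namespace Pool.Agent.DBX.CMD

open MvPolynomial Pool.Agent.DBX

universe u v

namespace CHN_

variable {A : Type u} [CommRing A] {I : Ideal A} (P : Ideal (A ⧸ I)) [P.IsPrime]

/-- the map to the localisation -/
noncomputable def th : A →+* Localization.AtPrime P :=
  (algebraMap (A ⧸ I) (Localization.AtPrime P)).comp (Ideal.Quotient.mk I)

theorem th_unit {s : A} (hs : s ∉ P.comap (Ideal.Quotient.mk I)) : IsUnit (th P s) := by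
  have h : Ideal.Quotient.mk I s ∈ P.primeCompl := fun h => hs h
  exact IsLocalization.map_units (Localization.AtPrime P) (⟨_, h⟩ : P.primeCompl)

theorem frac (z : Localization.AtPrime P) : ∃ y s : A, s ∉ P.comap (Ideal.Quotient.mk I) ∧
    th P y = z * th P s := by
  obtain ⟨⟨y, s⟩, h⟩ := IsLocalization.surj P.primeCompl z
  obtain ⟨y', hy⟩ := Ideal.Quotient.mk_surjective y
  obtain ⟨s', hs⟩ := Ideal.Quotient.mk_surjective (s : A ⧸ I)
  refine ⟨y', s', ?_, ?_⟩
  · intro h'
    have : Ideal.Quotient.mk I s' ∈ P := h'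
    rw [hs] at this
    exact s.2 this
  · change algebraMap (A ⧸ I) _ (Ideal.Quotient.mk I y') =
      z * algebraMap (A ⧸ I) _ (Ideal.Quotient.mk I s')
    rw [hy, hs]
    exact h.symm

theorem th_zero {w : A} (h : th P w = 0) :
    ∃ s, s ∉ P.comap (Ideal.Quotient.mk I) ∧ s * w ∈ I := by
  obtain ⟨s, hs⟩ := (IsLocalization.map_eq_zero_iff P.primeCompl (Localization.AtPrime P)
    (Ideal.Quotient.mk I w)).1 h
  obtain ⟨s', hs'⟩ := Ideal.Quotient.mk_surjective (s : A ⧸ I)
  refine ⟨s', ?_, ?_⟩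
  · intro h'
    have : Ideal.Quotient.mk I s' ∈ P := h'
    rw [hs'] at this
    exact s.2 this
  · rw [← Ideal.Quotient.eq_zero_iff_mem, map_mul, hs']
    exact hs

theorem take_mem {L : Type u} [CommRing L] (rs : List L) (i : ℕ) (hi : i < rs.length) :
    Ideal.ofList (rs.take (i + 1)) = Ideal.ofList (rs.take i) ⊔ Ideal.span {rs[i]} := by
  rw [← List.take_append_getElem hi, Ideal.ofList_append, Ideal.ofList_singleton]

end CHN_

theorem chn_proof : Stmt_CHN.{u} := by
  intro A _ I P _ rs hrs hreg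
  have hch : ∀ i : ℕ, ∃ y s : A, s ∉ P.comap (Ideal.Quotient.mk I) ∧
      (∀ hi : i < rs.length, CHN_.th P y = rs[i] * CHN_.th P s) := by
    intro i
    by_cases hi : i < rs.length
    · obtain ⟨y, s, hs, h⟩ := CHN_.frac P rs[i]
      exact ⟨y, s, hs, fun _ => h⟩
    · refine ⟨0, 1, ?_, fun h => absurd h hi⟩
      intro h
      have h1 : Ideal.Quotient.mk I 1 ∈ P := h
      rw [map_one] at h1
      exact (Ideal.IsPrime.ne_top ‹P.IsPrime›) ((Ideal.eq_top_iff_one _).2 h1)
  choose a s hs ha using hch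
  refine ⟨fun i => (Ideal.ofList (rs.take i)).comap (CHN_.th P), a, ?_, ?_, ?_, ?_, ?_, ?_, ?_⟩
  · intro i hi
    have h1 : CHN_.th P (a i) ∈ IsLocalRing.maximalIdeal (Localization.AtPrime P) := by
      rw [ha i hi]
      exact Ideal.mul_mem_right _ _ (hrs _ (List.getElem_mem hi))
    exact (IsLocalization.AtPrime.to_map_mem_maximal_iff (Localization.AtPrime P) P
      (Ideal.Quotient.mk I (a i))).1 h1
  · intro i hi
    apply Ideal.comap_mono
    rw [CHN_.take_mem rs i hi]
    exact le_sup_left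
  · intro i hi
    rw [Ideal.mem_comap, CHN_.take_mem rs i hi, ha i hi]
    exact Ideal.mul_mem_right _ _ (Ideal.mem_sup_right (Ideal.mem_span_singleton_self _))
  · intro i hi w hw
    rw [Ideal.mem_comap, map_mul, ha i hi, mul_assoc] at hw
    have h1 := hreg.regular_mod_prev i hi
    rw [isSMulRegular_quotient_iff_mem_of_smul_mem] at h1
    have h2 := h1 (CHN_.th P (s i) * CHN_.th P w) (by
      rw [smul_eq_mul, smul_eq_mul, Ideal.mul_top]
      exact hw)
    rw [smul_eq_mul, Ideal.mul_top] at h2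
    rw [Ideal.mem_comap]
    exact (Ideal.unit_mul_mem_iff_mem _ (CHN_.th_unit P (hs i))).1 h2
  · intro i hi w hw
    rw [Ideal.mem_comap, CHN_.take_mem rs i hi, Submodule.mem_sup] at hw
    obtain ⟨u, hu, c, hc, h1⟩ := hw
    obtain ⟨c, rfl⟩ := Ideal.mem_span_singleton'.1 hc
    obtain ⟨v, t, ht, h2⟩ := CHN_.frac P c
    refine ⟨s i * t, ?_, v, ?_⟩
    · intro h
      rcases (Ideal.IsPrime.mem_or_mem (inferInstance : (P.comap (Ideal.Quotient.mk I)).IsPrime)
        h) with h | h
      · exact hs i h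
      · exact ht h
    · rw [Ideal.mem_comap, map_sub, map_mul, map_mul, map_mul, ha i hi, h2, ← h1]
      have e : CHN_.th P (s i) * CHN_.th P t * (u + c * rs[i]) -
          rs[i] * CHN_.th P (s i) * (c * CHN_.th P t) =
          (CHN_.th P (s i) * CHN_.th P t) * u := by ring
      rw [e]
      exact Ideal.mul_mem_left _ _ hu
  · intro w hw
    rw [Ideal.mem_comap]
    have : CHN_.th P w = 0 := by
      unfold CHN_.th
      rw [RingHom.comp_apply, Ideal.Quotient.eq_zero_iff_mem.2 hw, map_zero]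
    rw [this]
    exact zero_mem _
  · intro w hw
    rw [Ideal.mem_comap] at hw
    simp only [List.take_zero, Ideal.ofList_nil, Submodule.mem_bot] at hw
    exact CHN_.th_zero P hw

end Pool.Agent.DBX.CMD
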