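import Pool.Agent.DBX.CMD.Stmts

set_option autoImplicit false

namespace Pool.Agent.DBX.CMD

open MvPolynomial Pool.Agent.DBX

universe u v

namespace CMF_

open RingTheory.Sequence

/-- length of a regular sequence is at most the dimension -/
lemma length_le {B : Type u} [CommRing B] [IsLocalRing B] [IsNoetherianRing B] (rs : List B)
    (reg : IsRegular B rs) : (rs.length : WithBot ℕ∞) ≤ ringKrullDim B := by
  have h := ringKrullDim_add_length_eq_ringKrullDim_of_isRegular rs reg
  rw [← h]
  have hne : Ideal.ofList rs ≠ ⊤ := by
    intro h0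
    apply reg.2
    rw [h0]
    simp
  have : Nontrivial (B ⧸ Ideal.ofList rs) := Ideal.Quotient.nontrivial_iff.2 hne
  have h0 : 0 ≤ ringKrullDim (B ⧸ Ideal.ofList rs) := ringKrullDim_nonneg_of_nontrivial
  calc (rs.length : WithBot ℕ∞) = 0 + rs.length := by rw [zero_add]
    _ ≤ _ := by gcongr

lemma height_le {A R : Type u} [CommRing A] [CommRing R] [IsNoetherianRing A]
    [IsNoetherianRing R] [Algebra A R] [Algebra.IsIntegral A R] (P : Ideal R) [P.IsPrime] :
    P.height ≤ (P.under A).height := by
  have h := Ideal.height_le_height_add_of_liesOver (P.under A) P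
  refine h.trans ?_
  have h0 : (P.map (Ideal.Quotient.mk ((P.under A).map (algebraMap A R)))).height = 0 := by
    have hker : RingHom.ker (Ideal.Quotient.mk ((P.under A).map (algebraMap A R))) ≤ P := by
      rw [Ideal.mk_ker]
      exact Ideal.map_comap_le
    have hp' : (P.map (Ideal.Quotient.mk ((P.under A).map (algebraMap A R)))).IsPrime :=
      Ideal.map_isPrime_of_surjective Ideal.Quotient.mk_surjective hker
    rw [Ideal.height_eq_zero_iff]
    refine ⟨⟨hp', bot_le⟩, ?_⟩
    rintro Q' ⟨hQ', -⟩ hle
    have := hQ'
    set Q : Ideal R := Q'.comap (Ideal.Quotient.mk ((P.under A).map (algebraMap A R))) with hQ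
    have hQp : Q.IsPrime := Ideal.comap_isPrime _ Q'
    have hQP : Q ≤ P := by
      intro x hx
      have h1 : Ideal.Quotient.mk ((P.under A).map (algebraMap A R)) x ∈
          P.map (Ideal.Quotient.mk ((P.under A).map (algebraMap A R))) := hle hx
      have h2 := (Ideal.mem_map_iff_of_surjective _ Ideal.Quotient.mk_surjective).1 h1
      obtain ⟨y, hy, hxy⟩ := h2
      have h3 : x - y ∈ RingHom.ker (Ideal.Quotient.mk ((P.under A).map (algebraMap A R))) := by
        rw [RingHom.mem_ker, map_sub, hxy, sub_self]
      have h4 := P.add_mem (hker h3) hy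
      rwa [sub_add_cancel] at h4
    have hpQ : P.under A ≤ Q.comap (algebraMap A R) := by
      intro a ha
      show Ideal.Quotient.mk ((P.under A).map (algebraMap A R)) (algebraMap A R a) ∈ Q'
      have h1 : algebraMap A R a ∈ (P.under A).map (algebraMap A R) := Ideal.mem_map_of_mem _ ha
      rw [Ideal.Quotient.eq_zero_iff_mem.2 h1]
      exact Q'.zero_mem
    have hPQ : P ≤ Q := by
      intro x hx
      by_contra hxQ
      have h1 := Ideal.comap_lt_comap_of_integral_mem_sdiff (R := A) hQP ⟨hx, hxQ⟩
        (Algebra.IsIntegral.isIntegral x)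
      exact absurd hpQ (not_le_of_gt h1)
    intro y hy
    obtain ⟨x, hx, rfl⟩ := (Ideal.mem_map_iff_of_surjective _ Ideal.Quotient.mk_surjective).1 hy
    exact hPQ hx
  rw [h0, add_zero]

end CMF_

open CMF_ RingTheory.Sequence in
theorem cmf_proof : Stmt_CMF.{u} := by
  intro A R _ _ _ φ hfin hflat hA P hP
  letI : Algebra A R := φ.toAlgebra
  have : Module.Finite A R := hfin
  have : IsNoetherianRing R := IsNoetherianRing.of_finite A R
  have : Algebra.IsIntegral A R := inferInstance
  have : (P.under A).IsPrime := inferInstance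
  obtain ⟨rs, hmem, hreg, hlen⟩ := hA (P.under A)
  set ψ := Localization.localRingHom (P.under A) P φ rfl with hψ
  have hψf : ψ.Flat := hflat.localRingHom P (P.under A) rfl
  have hψl : IsLocalHom ψ := Localization.isLocalHom_localRingHom _ _ _ rfl
  let _ : Algebra (Localization.AtPrime (P.under A)) (Localization.AtPrime P) := ψ.toAlgebra
  have : Module.Flat (Localization.AtPrime (P.under A)) (Localization.AtPrime P) := hψf
  have : IsLocalHom (algebraMap (Localization.AtPrime (P.under A)) (Localization.AtPrime P)) :=
    hψl
  have : Module.FaithfullyFlat (Localization.AtPrime (P.under A)) (Localization.AtPrime P) :=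
    Module.FaithfullyFlat.of_flat_of_isLocalHom
  have hreg' : IsRegular (Localization.AtPrime P)
      (rs.map (algebraMap (Localization.AtPrime (P.under A)) (Localization.AtPrime P))) :=
    hreg.of_faithfullyFlat
  have : IsNoetherianRing (Localization.AtPrime P) :=
    IsLocalization.isNoetherianRing P.primeCompl _ inferInstance
  refine ⟨_, ?_, hreg', ?_⟩
  · intro x hx
    obtain ⟨y, hy, rfl⟩ := List.mem_map.1 hx
    have h1 := hmem y hy
    rw [IsLocalRing.mem_maximalIdeal, mem_nonunits_iff] at h1 ⊢
    intro h2
    exact h1 (isUnit_of_map_unit (algebraMap (Localization.AtPrime (P.under A))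
      (Localization.AtPrime P)) y h2)
  · apply le_antisymm
    · exact length_le _ hreg'
    · rw [List.length_map, hlen, IsLocalization.AtPrime.ringKrullDim_eq_height P,
        IsLocalization.AtPrime.ringKrullDim_eq_height (P.under A)]
      exact_mod_cast height_le P

end Pool.Agent.DBX.CMD
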