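import Pool.Agent.DBX.CMD.Stmts

/-!
# DBX, area CMD, module CMI: Cohen-Macaulayness is invariant under ring isomorphisms.
-/

set_option autoImplicit false

namespace Pool.Agent.DBX.CMD

open Pool.Agent.DBX

universe u

namespace CMI_

theorem regular_map {A B : Type u} [CommRing A] [CommRing B] (e : A ≃+* B) (rs : List A)
    (h : RingTheory.Sequence.IsRegular A rs) :
    RingTheory.Sequence.IsRegular B (rs.map e) := by
  refine (AddEquiv.isRegular_congr (e := e.toAddEquiv) ?_).mp h
  rw [List.forall₂_map_right_iff, List.forall₂_same]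
  intro r _ x
  exact map_mul e r x

theorem maximal_map {A B : Type u} [CommRing A] [CommRing B] [IsLocalRing A] [IsLocalRing B]
    (e : A ≃+* B) (x : A) (h : x ∈ IsLocalRing.maximalIdeal A) :
    e x ∈ IsLocalRing.maximalIdeal B := by
  rw [IsLocalRing.mem_maximalIdeal, mem_nonunits_iff] at h ⊢
  rwa [MulEquiv.isUnit_map]

theorem primeCompl_map {A B : Type u} [CommRing A] [CommRing B] (e : A ≃+* B) (P : Ideal B)
    [P.IsPrime] : (P.comap (e : A →+* B)).primeCompl.map (e : A →* B) = P.primeCompl := by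
  ext x
  constructor
  · rintro ⟨y, hy, rfl⟩
    exact hy
  · intro hx
    refine ⟨e.symm x, ?_, e.apply_symm_apply x⟩
    change e (e.symm x) ∉ P
    rw [e.apply_symm_apply]
    exact hx

end CMI_

open CMI_ in
theorem cmi_proof : Stmt_CMI.{u} := by
  rintro A B _ _ ⟨e⟩ h P _
  obtain ⟨rs, h1, h2, h3⟩ := h (P.comap (e : A →+* B))
  let E : Localization.AtPrime (P.comap (e : A →+* B)) ≃+* Localization.AtPrime P :=
    IsLocalization.ringEquivOfRingEquiv _ _ e (primeCompl_map e P)
  refine ⟨rs.map E, ?_, regular_map E rs h2, ?_⟩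
  · intro x hx
    obtain ⟨y, hy, rfl⟩ := List.mem_map.mp hx
    exact maximal_map E y (h1 y hy)
  · rw [List.length_map, h3]
    exact ringKrullDim_eq_of_ringEquiv E

end Pool.Agent.DBX.CMD
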