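import Pool.Agent.DBX.CMD.Stmts

set_option autoImplicit false

namespace Pool.Agent.DBX.CMD

open MvPolynomial Pool.Agent.DBX

universe u

theorem cmq_proof (hRLF : Stmt_RLF.{u}) (hFN1 : Stmt_FN1.{u}) (hFN2 : Stmt_FN2.{u})
    (hFLT : Stmt_FLT.{u}) (hCMV : Stmt_CMV.{u}) (hCMF : Stmt_CMF.{u}) :
    Pool.Agent.DBX.Stmt_CMQ.{u} := by
  intro k _ _ n I d hI _ hdim hLC
  obtain ⟨l, hl, hreg⟩ := hRLF k n I d hI hLC
  exact hCMF _ _ _ (hFN2 k n I d l hI hl (hFN1 k n I d l hI hdim hl hreg))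
    (hFLT k n I d l hI hl hreg) (hCMV k d)

end Pool.Agent.DBX.CMD
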