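import Pool.Agent.DBX.CMD.Stmts

set_option autoImplicit false

/-! # CMV: polynomial rings over fields are Cohen-Macaulay -/

namespace Pool.Agent.DBX.CMD

open MvPolynomial Pool.Agent.DBX

universe u v

namespace CMV_

/-- a field is Cohen-Macaulay -/
lemma cm_field (k : Type u) [Field k] : CM k := by
  intro P hP
  refine ⟨[], by simp, RingTheory.Sequence.IsRegular.nil _ _, ?_⟩
  have h1 : ringKrullDim (Localization.AtPrime P) = P.height :=
    IsLocalization.AtPrime.ringKrullDim_eq_height P _
  have h2 : P = ⊥ := (Ideal.eq_bot_or_top P).resolve_right hP.ne_top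
  have h3 : P.height = 0 := by
    subst h2
    simp
  rw [h1, h3]
  simp

end CMV_

theorem cmv_proof (hCMX : Stmt_CMX.{u}) (hCMI : Stmt_CMI.{u}) : Stmt_CMV.{u} := by
  intro k _ d
  induction d with
  | zero =>
    exact hCMI k (MvPolynomial (Fin 0) k) ⟨(MvPolynomial.isEmptyRingEquiv k (Fin 0)).symm⟩
      (CMV_.cm_field k)
  | succ d ih =>
    exact hCMI (Polynomial (MvPolynomial (Fin d) k)) (MvPolynomial (Fin (d+1)) k)
      ⟨(MvPolynomial.finSuccEquiv k d).symm.toRingEquiv⟩ (hCMX _ ih)

end Pool.Agent.DBX.CMD
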