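import Pool.Agent.DBX.CMD.Stmts

set_option autoImplicit false

/-! # CMD / CMX: polynomial rings over Cohen–Macaulay rings are Cohen–Macaulay -/

namespace Pool.Agent.DBX.CMD

open Pool.Agent.DBX

universe u v

namespace CMX_

open Polynomial Ideal IsLocalRing RingTheory.Sequence

/-- regular sequences, transported by a ring isomorphism -/
theorem transport {R S : Type u} [CommRing R] [CommRing S] (e : R ≃+* S) {rs : List R}
    (h : IsRegular R rs) : IsRegular S (rs.map e) := by
  refine (AddEquiv.isRegular_congr (e := e.toAddEquiv) (as := rs) (bs := rs.map e) ?_).1 h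
  exact List.forall₂_map_right_iff.mpr <| List.forall₂_same.mpr fun r _ x => by
    simp [smul_eq_mul]

/-- the local case -/
theorem loc {R : Type u} [CommRing R] [IsLocalRing R] [IsNoetherianRing R] (rs : List R)
    (h1 : ∀ x ∈ rs, x ∈ maximalIdeal R) (h2 : IsWeaklyRegular R rs)
    (h3 : (rs.length : WithBot ℕ∞) = ringKrullDim R) (P : Ideal R[X]) [P.IsPrime]
    (hP : P.comap C = maximalIdeal R) :
    ∃ ts : List R[X], (∀ x ∈ ts, x ∈ P) ∧ IsWeaklyRegular R[X] ts ∧
      (ts.length : ℕ∞) = P.height := by
  have hm : (P.comap C).IsMaximal := by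
    rw [hP]; exact maximalIdeal.isMaximal R
  have hh : (rs.length : ℕ∞) = (maximalIdeal R).height := by
    have := h3.trans (maximalIdeal_height_eq_ringKrullDim (R := R)).symm
    exact_mod_cast this
  have hq : (maximalIdeal R).map C ≤ P := by
    rw [← hP]; exact map_comap_le
  have hreg : IsWeaklyRegular R[X] (rs.map (algebraMap R R[X])) := h2.of_flat
  have hmem : ∀ x ∈ rs.map (algebraMap R R[X]), x ∈ P := by
    intro x hx
    obtain ⟨r, hr, rfl⟩ := List.mem_map.1 hx
    exact hq (Ideal.mem_map_of_mem _ (h1 r hr))
  by_cases hE : P = (P.comap C).map C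
  · refine ⟨rs.map (algebraMap R R[X]), hmem, hreg, ?_⟩
    rw [List.length_map, hh, hE, hP, height_map_C]
  · obtain ⟨y, hy, hPy⟩ := Polynomial.exists_monic_span_sup_map_eq R P hm hE
    refine ⟨rs.map (algebraMap R R[X]) ++ [y], ?_, ?_, ?_⟩
    · intro x hx
      rcases List.mem_append.1 hx with hx | hx
      · exact hmem x hx
      · rw [List.mem_singleton] at hx
        subst hx
        rw [hPy]
        exact Ideal.mem_sup_right (Ideal.mem_span_singleton_self _)
    · rw [isWeaklyRegular_append_iff]
      refine ⟨hreg, ?_⟩
      rw [isWeaklyRegular_singleton_iff]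
      have key : ∀ f : R[X], y * f ∈ (Ideal.ofList rs).map (algebraMap R R[X]) →
          f ∈ (Ideal.ofList rs).map (algebraMap R R[X]) := by
        intro f hf
        have hiff : ∀ g : R[X], g ∈ (Ideal.ofList rs).map (algebraMap R R[X]) ↔
            g.map (Ideal.Quotient.mk (Ideal.ofList rs)) = 0 := by
          intro g
          rw [Polynomial.algebraMap_eq, Ideal.mem_map_C_iff, Polynomial.ext_iff]
          simp [Ideal.Quotient.eq_zero_iff_mem]
        rw [hiff, Polynomial.map_mul] at hf
        rw [hiff]
        exact ((hy.map _).mul_right_eq_zero_iff).1 hf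
      rw [isSMulRegular_iff_right_eq_zero_of_smul]
      intro z hz
      obtain ⟨f, rfl⟩ := Submodule.Quotient.mk_surjective _ z
      rw [← Submodule.Quotient.mk_smul, Submodule.Quotient.mk_eq_zero] at hz
      rw [Submodule.Quotient.mk_eq_zero]
      rw [← Ideal.map_ofList, Ideal.smul_eq_mul, Ideal.mul_top] at hz ⊢
      exact key f hz
    · rw [List.length_append, List.length_map, List.length_singleton, Nat.cast_add, hh,
        Nat.cast_one]
      refine le_antisymm ?_ ?_
      · have h5 : (maximalIdeal R).map C < P := lt_of_le_of_ne hq (by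
          rw [← hP]; exact fun h => hE h.symm)
        have h6 := Ideal.height_add_one_le_of_lt_of_isPrime h5
        rwa [height_map_C] at h6
      · obtain ⟨M, hM, hPM⟩ := Ideal.exists_le_maximal P (Ideal.IsPrime.ne_top inferInstance)
        have hMc : M.comap C = maximalIdeal R := by
          have := Ideal.comap_mono (f := (C : R →+* R[X])) hPM
          rw [hP] at this
          exact (IsMaximal.eq_of_le (maximalIdeal.isMaximal R)
            (Ideal.IsPrime.ne_top inferInstance) this).symm
        have : M.LiesOver (maximalIdeal R) := ⟨hMc.symm⟩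
        rw [← height_eq_height_add_one (maximalIdeal R) M]
        exact Ideal.height_mono hPM

end CMX_

open CMX_ Polynomial Ideal IsLocalRing RingTheory.Sequence in
theorem cmx_proof : Stmt_CMX.{u} := by
  intro A _ _ hA P hPp
  let q : Ideal A := P.comap C
  obtain ⟨rs, h1, h2, h3⟩ := hA q
  let S := (Localization.AtPrime q)[X]
  let pc := Submonoid.map Polynomial.C.toMonoidHom q.primeCompl
  let : Algebra A[X] S := Polynomial.algebra A (Localization.AtPrime q)
  have : IsLocalization pc S := Polynomial.isLocalization _ _
  let pS := P.map (algebraMap A[X] S)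
  have disj : Disjoint (pc : Set A[X]) (P : Set A[X]) := by
    simpa [pc, q] using! Set.disjoint_image_left.mpr
      (Set.disjoint_compl_left_iff_subset.mpr (fun _ a ↦ a))
  have : pS.IsPrime := IsLocalization.isPrime_of_isPrime_disjoint pc _ _ ‹_› disj
  have : IsLocalization.AtPrime (Localization.AtPrime pS) P := by
    convert IsLocalization.isLocalization_isLocalization_atPrime_isLocalization pc
      (Localization.AtPrime pS) pS
    exact (IsLocalization.under_map_of_isPrime_disjoint pc _ ‹_› disj).symm
  have eq : comap C pS = maximalIdeal (Localization.AtPrime q) := by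
    rw [← IsLocalization.map_under q.primeCompl _ (comap C pS),
      ← IsLocalization.map_under q.primeCompl _ (maximalIdeal (Localization.AtPrime q))]
    simp only [comap_comap, S, pS]
    rw [← Polynomial.algebraMap_eq (R := Localization.AtPrime q),
      ← IsScalarTower.algebraMap_eq A (Localization.AtPrime q) (Localization.AtPrime q)[X],
      IsScalarTower.algebraMap_eq A A[X] (Localization.AtPrime q)[X], ← comap_comap,
      ← Ideal.under_def A[X], IsLocalization.under_map_of_isPrime_disjoint pc _ ‹_› disj]
    simp [q, IsLocalization.AtPrime.under_maximalIdeal (Localization.AtPrime q) q]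
  obtain ⟨ts, t1, t2, t3⟩ := loc rs h1 h2.1 h3 pS eq
  have hr := t2.isRegular_of_isLocalization_of_mem (Localization.AtPrime pS) pS t1
  let e : Localization.AtPrime pS ≃+* Localization.AtPrime P :=
    (IsLocalization.algEquiv P.primeCompl
      (Localization.AtPrime pS) (Localization.AtPrime P)).toRingEquiv
  refine ⟨(ts.map (algebraMap S (Localization.AtPrime pS))).map e, ?_, transport e hr, ?_⟩
  · intro x hx
    obtain ⟨z, hz, rfl⟩ := List.mem_map.1 hx
    obtain ⟨w, hw, rfl⟩ := List.mem_map.1 hz
    have hz' : algebraMap S (Localization.AtPrime pS) w ∈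
        maximalIdeal (Localization.AtPrime pS) :=
      (IsLocalization.AtPrime.to_map_mem_maximal_iff _ pS w).2 (t1 w hw)
    rw [IsLocalRing.mem_maximalIdeal, mem_nonunits_iff] at hz' ⊢
    intro hu
    exact hz' ((MulEquiv.isUnit_map e).1 hu)
  · rw [List.length_map, List.length_map, ← ringKrullDim_eq_of_ringEquiv e,
      IsLocalization.AtPrime.ringKrullDim_eq_height pS (Localization.AtPrime pS), ← t3]
    rfl

end Pool.Agent.DBX.CMD
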