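import Pool.Agent.DBX.CMD.Stmts

set_option autoImplicit false

/-! # MP_2c751f_ag, squad DBX, area CMD, module DEP -/

namespace Pool.Agent.DBX.CMD

open MvPolynomial Pool.Agent.DBX

universe u v

theorem dep_proof (hLCD : Stmt_LCD.{u}) (hCMP : Pool.Agent.DBX.ALG.Stmt_CMP.{u}) :
    Pool.Agent.DBX.Stmt_DEP.{u} := by
  intro k _ _ n I r d hI hI' hS hd hdn M δ f m g hg
  cases g with
  | zero =>
    intro x hx hsupp hc
    have hx0 : x ∅ = 0 := by
      have h1 := hc {(⟨0, by omega⟩ : Fin n)}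
      have h2 : cd x {(⟨0, by omega⟩ : Fin n)} = x ∅ := cd_singleton x _
      exact h2.symm.trans h1
    have hx1 : ∀ σ, x σ = 0 := by
      intro σ
      rcases Finset.eq_empty_or_nonempty σ with h | h
      · rw [h, hx0]
      · exact hsupp σ (Finset.card_pos.2 h).ne'
    refine ⟨fun _ => 0, fun σ => Submodule.zero_mem _, fun σ => ?_⟩
    rw [hx1 σ]
    exact congrFun (cd_zero (V := Fin n) (M := Fr k n)) σ
  | succ j =>
    exact (hCMP k n I hI M δ f m j (by omega)).1
      (hLCD k n I r d hI hI' hS hd m j (by omega))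

end Pool.Agent.DBX.CMD
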