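import Pool.Agent.DBX.CMD.Stmts
import Pool.Agent.DC.NN

set_option autoImplicit false

/-! # MP_2c751f_ag, squad DBX, area CMD, module DMM: the dimension of a graded ring is at most the
height of the irrelevant ideal -/

namespace Pool.Agent.DBX.CMD

open MvPolynomial Pool.Agent.DBX Pool.Agent.DC.NN

noncomputable section

universe u

namespace DMM_

variable {k : Type u} [Field k]

/-- the homogeneous core -/
theorem core {n : ℕ} (Q : Ideal (Pol k n)) (hQ : Q.IsPrime) :
    ∃ Q0 : Ideal (Pol k n), Q0.IsPrime ∧ HomIdeal Q0 ∧ Q0 ≤ Q ∧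
      ∀ I : Ideal (Pol k n), HomIdeal I → I ≤ Q → I ≤ Q0 := by
  classical
  let _ := MvPolynomial.gradedAlgebra (σ := Fin n) (R := k)
  refine ⟨(Q.homogeneousCore (homogeneousSubmodule (Fin n) k)).toIdeal,
    Ideal.IsPrime.homogeneousCore hQ, ?_, Ideal.toIdeal_homogeneousCore_le _ _, ?_⟩
  · intro w hw d
    have := (Q.homogeneousCore (homogeneousSubmodule (Fin n) k)).is_homogeneous' d hw
    rw [← decomposition.decompose'_apply]
    exact this
  · intro I hI hIQ
    have h1 : I.IsHomogeneous (homogeneousSubmodule (Fin n) k) := by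
      intro d w hw
      have := hI w hw d
      rw [← decomposition.decompose'_apply] at this
      exact this
    intro w hw
    rw [← h1.toIdeal_homogeneousCore_eq_self] at hw
    exact Ideal.homogeneousCore_mono _ hIQ hw

/-- the substitution `T_j ↦ 0` for `j < i` -/
def sb (k : Type u) [Field k] (r i : ℕ) :
    MvPolynomial (Fin r) k →ₐ[k] MvPolynomial (Fin r) k :=
  aeval (fun j : Fin r => if (j : ℕ) < i then 0 else X j)

theorem sb_X (r i : ℕ) (j : Fin r) :
    sb k r i (X j) = if (j : ℕ) < i then 0 else X j := by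
  unfold sb
  rw [aeval_X]

theorem sb_sb (r i : ℕ) : (sb k r (i + 1)).comp (sb k r i) = sb k r (i + 1) := by
  apply MvPolynomial.algHom_ext
  intro j
  rw [AlgHom.comp_apply, sb_X, sb_X]
  by_cases h : (j : ℕ) < i
  · rw [if_pos h, if_pos (by omega), map_zero]
  · rw [if_neg h, sb_X]

/-- the chain of primes of `k[T]` -/
def pk (k : Type u) [Field k] (r i : ℕ) : PrimeSpectrum (MvPolynomial (Fin r) k) :=
  ⟨RingHom.ker (sb k r i), RingHom.ker_isPrime _⟩

theorem mem_pk (r i : ℕ) (w : MvPolynomial (Fin r) k) :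
    w ∈ (pk k r i).asIdeal ↔ sb k r i w = 0 := Iff.rfl

theorem pk_lt (r i : ℕ) (hi : i < r) : pk k r i < pk k r (i + 1) := by
  rw [← PrimeSpectrum.asIdeal_lt_asIdeal, SetLike.lt_iff_le_and_exists]
  constructor
  · intro w hw
    rw [mem_pk] at hw ⊢
    rw [← sb_sb, AlgHom.comp_apply, hw, map_zero]
  · refine ⟨X ⟨i, hi⟩, ?_, ?_⟩
    · rw [mem_pk, sb_X]
      simp
    · rw [mem_pk, sb_X]
      simp

theorem mem_pk_top (r : ℕ) (w : MvPolynomial (Fin r) k) (h : constantCoeff w = 0) :
    w ∈ (pk k r r).asIdeal := by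
  rw [mem_pk]
  have h1 : sb k r r = aeval (fun _ => 0) := by
    unfold sb
    congr 1
    funext j
    rw [if_pos j.2]
  rw [h1, aeval_zero', h, map_zero]

/-- the chain -/
def chain (k : Type u) [Field k] (r : ℕ) : LTSeries (PrimeSpectrum (MvPolynomial (Fin r) k)) where
  length := r
  toFun i := pk k r i
  step i := by
    have := pk_lt (k := k) r i i.2
    simpa using this

theorem chain_last (r : ℕ) : (chain k r).last = pk k r r := by
  change pk k r ((Fin.last r : Fin (r + 1)) : ℕ) = _
  rw [Fin.val_last]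

/-- the main step: a chain of primes in `S/Q0` ending at a prime containing the variables -/
theorem main {n r : ℕ} (Q0 : Ideal (Pol k (n + 1))) (hh : HomIdeal Q0)
    (M : Fin r → Pol k (n + 1)) (hM : ∀ j, (M j).IsHomogeneous 1)
    (hint : (phi Q0 M).toRingHom.IsIntegral) (hinj : Function.Injective (phi Q0 M)) :
    ∃ L : LTSeries (PrimeSpectrum (Pol k (n + 1) ⧸ Q0)), L.length = r ∧
      ∀ i, Ideal.Quotient.mk Q0 (X i) ∈ L.last.asIdeal := by
  let _ : Algebra (MvPolynomial (Fin r) k) (Pol k (n + 1) ⧸ Q0) := (phi Q0 M).toRingHom.toAlgebra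
  have _ : Algebra.IsIntegral (MvPolynomial (Fin r) k) (Pol k (n + 1) ⧸ Q0) := ⟨hint⟩
  have hker : RingHom.ker (algebraMap (MvPolynomial (Fin r) k) (Pol k (n + 1) ⧸ Q0)) = ⊥ :=
    (RingHom.injective_iff_ker_eq_bot _).mp hinj
  obtain ⟨P, -, hP, hPl⟩ := Ideal.exists_ideal_over_prime_of_isIntegral
    (R := MvPolynomial (Fin r) k) (S := Pol k (n + 1) ⧸ Q0) (chain k r).head.asIdeal ⊥ (by
      change RingHom.ker _ ≤ _
      rw [hker]; exact bot_le)
  have _ : P.LiesOver (RelSeries.head (chain k r)).asIdeal := ⟨hPl.symm⟩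
  obtain ⟨L, hL, -, hLl⟩ := Ideal.exists_ltSeries_of_hasGoingUp
    (R := MvPolynomial (Fin r) k) (S := Pol k (n + 1) ⧸ Q0) (chain k r) P
  refine ⟨L, hL, ?_⟩
  have hlast : PrimeSpectrum.comap (algebraMap (MvPolynomial (Fin r) k) (Pol k (n + 1) ⧸ Q0))
      L.last = pk k r r := by
    rw [← chain_last, ← RelSeries.getLast_toList, ← RelSeries.getLast_toList]
    rw [← List.getLast_map (f := PrimeSpectrum.comap
      (algebraMap (MvPolynomial (Fin r) k) (Pol k (n + 1) ⧸ Q0)))]
    · congr 1
    · rw [hLl]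
      exact RelSeries.toList_ne_nil _
  have hmem : ∀ g : MvPolynomial (Fin r) k, constantCoeff g = 0 →
      phi Q0 M g ∈ L.last.asIdeal := by
    intro g hg
    have h1 := mem_pk_top r g hg
    rw [← hlast] at h1
    exact h1
  intro i
  obtain ⟨f, hf, hfx⟩ := hint (Ideal.Quotient.mk Q0 (X i))
  have e1 : Ideal.Quotient.mk Q0 (∑ j ∈ Finset.range (f.natDegree + 1),
      aeval M (f.coeff j) * X i ^ j) = 0 := by
    rw [Polynomial.eval₂_eq_sum_range] at hfx
    rw [← hfx, map_sum]
    refine Finset.sum_congr rfl (fun j _ => ?_)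
    rw [map_mul, map_pow]
    rfl
  rw [Ideal.Quotient.eq_zero_iff_mem] at e1
  have e2 := hh _ e1 f.natDegree
  have e3 : homogeneousComponent f.natDegree (∑ j ∈ Finset.range (f.natDegree + 1),
      aeval M (f.coeff j) * X i ^ j) = ∑ j ∈ Finset.range (f.natDegree + 1),
        aeval M (homogeneousComponent (f.natDegree - j) (f.coeff j)) * X i ^ j := by
    rw [map_sum]
    refine Finset.sum_congr rfl (fun j hj => ?_)
    have hj' : j ≤ f.natDegree := by
      have := Finset.mem_range.1 hj
      omega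
    have e4 : aeval M (f.coeff j) * X i ^ j = ∑ d ∈ Finset.range ((f.coeff j).totalDegree + 1),
        aeval M (homogeneousComponent d (f.coeff j)) * X i ^ j := by
      rw [← Finset.sum_mul, ← map_sum, sum_homogeneousComponent]
    rw [e4, map_sum]
    have e5 : ∀ d ∈ Finset.range ((f.coeff j).totalDegree + 1),
        homogeneousComponent f.natDegree
          (aeval M (homogeneousComponent d (f.coeff j)) * (X i : Pol k (n + 1)) ^ j) =
        if f.natDegree - j = d then aeval M (homogeneousComponent d (f.coeff j)) * X i ^ j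
          else 0 := by
      intro d _
      have h2 : (aeval M (homogeneousComponent d (f.coeff j)) *
          (X i : Pol k (n + 1)) ^ j).IsHomogeneous (d + j) := by
        have h3 : (aeval M (homogeneousComponent d (f.coeff j))).IsHomogeneous d := by
          simpa using (homogeneousComponent_isHomogeneous d (f.coeff j)).aeval M hM
        have h4 : ((X i : Pol k (n + 1)) ^ j).IsHomogeneous j := by
          simpa using (isHomogeneous_X k i).pow j
        exact h3.mul h4
      rw [homogeneousComponent_of_mem h2]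
      by_cases h : f.natDegree - j = d
      · rw [if_pos h, if_pos (by omega)]
      · rw [if_neg h, if_neg (by omega)]
    rw [Finset.sum_congr rfl e5, Finset.sum_ite_eq]
    split_ifs with h
    · rfl
    · rw [homogeneousComponent_eq_zero (f.natDegree - j) (f.coeff j) (by
        rw [Finset.mem_range] at h
        omega), map_zero, zero_mul]
  rw [e3, Finset.sum_range_succ] at e2
  have e6 : aeval M (homogeneousComponent (f.natDegree - f.natDegree) (f.coeff f.natDegree)) *
      (X i : Pol k (n + 1)) ^ f.natDegree = X i ^ f.natDegree := by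
    have h1 : f.coeff f.natDegree = 1 := hf
    rw [h1, Nat.sub_self, homogeneousComponent_zero]
    simp
  rw [e6, ← Ideal.Quotient.eq_zero_iff_mem, map_add, map_sum, map_pow] at e2
  have e7 : Ideal.Quotient.mk Q0 (X i) ^ f.natDegree ∈ L.last.asIdeal := by
    rw [eq_neg_of_add_eq_zero_right e2]
    refine Ideal.neg_mem_iff _ |>.2 (Ideal.sum_mem _ (fun j hj => ?_))
    rw [map_mul]
    refine Ideal.mul_mem_right _ _ ?_
    refine hmem _ ?_
    have hj' := Finset.mem_range.1 hj
    rw [constantCoeff_eq, coeff_homogeneousComponent, if_neg]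
    intro h
    simp at h
    omega
  exact L.last.2.mem_of_pow_mem _ e7

end DMM_

open DMM_ in
theorem dmm_proof (hIRR : Stmt_IRR.{u}) : Stmt_DMM.{u} := by
  intro k _ _ n I d hI hI1 hdim P hP hPeq
  obtain ⟨-, hmax, -, hcomap, hmem⟩ := hIRR k n I hI hI1
  rcases n with _ | n
  · have h1 : ringKrullDim (Pol k 0 ⧸ I) ≤ 0 := by
      refine (ringKrullDim_quotient_le I).trans ?_
      rw [MvPolynomial.ringKrullDim_of_isNoetherianRing, ringKrullDim_eq_zero_of_field]
      simp
    rw [hdim] at h1
    have h2 : (d : WithBot ℕ∞) ≤ 0 := h1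
    exact h2.trans (ringKrullDim_nonneg_of_nontrivial)
  · -- a chain of length `d`
    have h1 : (d : WithBot ℕ∞) ≤ Order.krullDim (PrimeSpectrum.zeroLocus (I : Set (Pol k (n + 1)))) := by
      rw [← ringKrullDim_quotient, hdim]
    obtain ⟨l, hl⟩ := Order.le_krullDim_iff.1 h1
    obtain ⟨Q0, hQ0, hQ0h, hQ0le, hQ0core⟩ := core (l.head.1.asIdeal) l.head.1.2
    have hIQ0 : I ≤ Q0 := hQ0core I hI l.head.2
    have h2 : (d : WithBot ℕ∞) ≤ ringKrullDim (Pol k (n + 1) ⧸ Q0) := by
      rw [ringKrullDim_quotient]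
      refine Order.le_krullDim_iff.2 ⟨⟨l.length, fun i => ⟨(l i).1, ?_⟩, ?_⟩, hl⟩
      · intro w hw
        have h3 : l.head ≤ l i := l.monotone (Fin.zero_le i)
        exact h3 (hQ0le hw)
      · intro i
        exact l.step i
    obtain ⟨r, M, hM, hint, hinj⟩ := exists_forms Q0 hQ0 hQ0h
    have h3 : ringKrullDim (Pol k (n + 1) ⧸ Q0) = r := by
      let _ : Algebra (MvPolynomial (Fin r) k) (Pol k (n + 1) ⧸ Q0) :=
        (phi Q0 M).toRingHom.toAlgebra
      have _ : Algebra.IsIntegral (MvPolynomial (Fin r) k) (Pol k (n + 1) ⧸ Q0) := ⟨hint⟩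
      have _ : IsDomain (Pol k (n + 1) ⧸ Q0) := Ideal.Quotient.isDomain Q0
      have h4 : ringKrullDim (MvPolynomial (Fin r) k) = ringKrullDim (Pol k (n + 1) ⧸ Q0) :=
        LibDb3ab1.ringKrullDim_eq_of_integral hinj
      rw [← h4, MvPolynomial.ringKrullDim_of_isNoetherianRing, ringKrullDim_eq_zero_of_field,
        zero_add, Nat.card_eq_fintype_card, Fintype.card_fin]
    rw [h3] at h2
    obtain ⟨L, hL, hLX⟩ := main Q0 hQ0h M hM hint hinj
    refine h2.trans ?_
    rw [IsLocalization.AtPrime.ringKrullDim_eq_height P (Localization.AtPrime P)]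
    -- transport the chain to `S/I`
    have hsm : StrictMono (PrimeSpectrum.comap (Ideal.Quotient.factor hIQ0)) := by
      intro A B hAB
      refine lt_of_le_of_ne (Ideal.comap_mono hAB.le) (fun h => hAB.ne ?_)
      exact PrimeSpectrum.comap_injective_of_surjective _ (Ideal.Quotient.factor_surjective hIQ0) h
    have h5 := Order.length_le_height (p := L.map _ hsm) (x := (⟨P, hP⟩ : PrimeSpectrum _)) ?_
    · rw [← PrimeSpectrum.height_eq_orderHeight (⟨P, hP⟩ : PrimeSpectrum _)] at h5
      have h6 : (L.map _ hsm).length = r := hL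
      rw [h6] at h5
      exact_mod_cast h5
    · have h7 : (L.map _ hsm).last = PrimeSpectrum.comap (Ideal.Quotient.factor hIQ0) L.last := rfl
      rw [h7]
      intro z hz
      obtain ⟨w, rfl⟩ := Ideal.Quotient.mk_surjective z
      have h8 : Ideal.span (Set.range (X : Fin (n + 1) → Pol k (n + 1))) ≤
          L.last.asIdeal.comap (Ideal.Quotient.mk Q0) := by
        rw [Ideal.span_le]
        rintro _ ⟨i, rfl⟩
        exact hLX i
      have h9 := hmax.eq_of_le (Ideal.IsPrime.ne_top
        (Ideal.comap_isPrime (Ideal.Quotient.mk Q0) L.last.asIdeal)) h8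
      have h10 : w ∈ L.last.asIdeal.comap (Ideal.Quotient.mk Q0) := hz
      rw [← h9, ← hcomap, ← hPeq] at h10
      exact h10

end

end Pool.Agent.DBX.CMD
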