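import Pool.Agent.DBX.CMD.Stmts

set_option autoImplicit false

/-! # CMD / DSC: vanishing of local cohomology modulo a regular linear form -/

namespace Pool.Agent.DBX.CMD

open MvPolynomial Pool.Agent.DBX

universe u v

namespace DSC_

variable {k : Type u} [Field k] {n : ℕ}

/-- `J[1/x_σ]` -/
noncomputable abbrev L (J : Ideal (Pol k n)) (σ : Finset (Fin n)) : Submodule (Pol k n) (Fr k n) :=
  LJ (X : Fin n → Pol k n) J σ

/-- the product of the variables -/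
noncomputable abbrev px (k : Type u) [Field k] {n : ℕ} (σ : Finset (Fin n)) : Pol k n :=
  ∏ a ∈ σ, (X a : Pol k n)

theorem px_ne (σ : Finset (Fin n)) : px k σ ≠ 0 :=
  Finset.prod_ne_zero_iff.2 fun a _ => X_ne_zero a

theorem mem_L {J : Ideal (Pol k n)} {σ : Finset (Fin n)} {z : Fr k n} :
    z ∈ L J σ ↔ ∃ (N : ℕ) (w : Pol k n), w ∈ J ∧ inc k n (px k σ ^ N) * z = inc k n w := Iff.rfl

theorem L_le {J J' : Ideal (Pol k n)} (h : J ≤ J') (σ : Finset (Fin n)) : L J σ ≤ L J' σ := by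
  rintro z ⟨N, w, hw, e⟩
  exact ⟨N, w, h hw, e⟩

theorem L_mono {J : Ideal (Pol k n)} {σ τ : Finset (Fin n)} (h : τ ⊆ σ) : L J τ ≤ L J σ := by
  rintro z ⟨N, w, hw, e⟩
  refine ⟨N, (∏ a ∈ σ \ τ, (X a : Pol k n)) ^ N * w, J.mul_mem_left _ hw, ?_⟩
  rw [← Finset.prod_sdiff h, mul_pow, map_mul, mul_assoc, e, ← map_mul]

theorem cd_L {J : Ideal (Pol k n)} {x : Finset (Fin n) → Fr k n} (hx : ∀ σ, x σ ∈ L J σ)
    (σ : Finset (Fin n)) : cd x σ ∈ L J σ :=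
  cd_mem (A := fun σ => (L J σ).toAddSubgroup)
    (fun σ v _ => L_mono (Finset.erase_subset v σ)) hx σ

theorem mul_L {J : Ideal (Pol k n)} {σ : Finset (Fin n)} {z : Fr k n} (w : Pol k n)
    (hz : z ∈ L J σ) : inc k n w * z ∈ L J σ := by
  have := (L J σ).smul_mem w hz
  rwa [Algebra.smul_def] at this

theorem mul_L' {J : Ideal (Pol k n)} {σ : Finset (Fin n)} {z : Fr k n} {w : Pol k n}
    (hw : w ∈ J) (hz : z ∈ L ⊤ σ) : inc k n w * z ∈ L J σ := by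
  obtain ⟨N, a, -, e⟩ := hz
  refine ⟨N, w * a, J.mul_mem_right _ hw, ?_⟩
  rw [map_mul, ← e]
  ring

theorem split_L {J J' : Ideal (Pol k n)} {σ : Finset (Fin n)} {z : Fr k n}
    (hz : z ∈ L (J ⊔ J') σ) : ∃ u ∈ L J σ, ∃ v ∈ L J' σ, z = u + v := by
  obtain ⟨N, w, hw, e⟩ := hz
  obtain ⟨a, ha, b, hb, rfl⟩ := Submodule.mem_sup.1 hw
  have hp : inc k n (px k σ ^ N) ≠ 0 := inc_ne (pow_ne_zero _ (px_ne σ))
  refine ⟨inc k n a / inc k n (px k σ ^ N), ⟨N, a, ha, ?_⟩,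
    inc k n b / inc k n (px k σ ^ N), ⟨N, b, hb, ?_⟩, ?_⟩
  · exact mul_div_cancel₀ _ hp
  · exact mul_div_cancel₀ _ hp
  · rw [← add_div, ← map_add, eq_div_iff hp, mul_comm]
    exact e

theorem split_l {l : Pol k n} {σ : Finset (Fin n)} {z : Fr k n}
    (hz : z ∈ L (Ideal.span {l}) σ) : ∃ v ∈ L ⊤ σ, z = inc k n l * v := by
  obtain ⟨N, w, hw, e⟩ := hz
  obtain ⟨a, rfl⟩ := Ideal.mem_span_singleton'.1 hw
  have hp : inc k n (px k σ ^ N) ≠ 0 := inc_ne (pow_ne_zero _ (px_ne σ))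
  refine ⟨inc k n a / inc k n (px k σ ^ N), ⟨N, a, trivial, ?_⟩, ?_⟩
  · exact mul_div_cancel₀ _ hp
  · rw [← mul_div_assoc, eq_div_iff hp, ← map_mul, mul_comm l a, mul_comm]
    exact e

theorem reg_L {J : Ideal (Pol k n)} {l : Pol k n} (hreg : Reg J l) {σ : Finset (Fin n)}
    {z : Fr k n} (h1 : z ∈ L ⊤ σ) (h2 : inc k n l * z ∈ L J σ) : z ∈ L J σ := by
  obtain ⟨N, a, -, e⟩ := h1
  obtain ⟨N', u, hu, e'⟩ := h2
  have hinj : Function.Injective (inc k n) := IsFractionRing.injective (MvPolynomial (Fin n) k)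
    (FractionRing (MvPolynomial (Fin n) k))
  have h3 : l * (px k σ ^ N' * a) = px k σ ^ N * u := by
    apply hinj
    rw [map_mul, map_mul, map_mul, ← e, ← e']
    ring
  refine ⟨N + N', px k σ ^ N' * a, hreg _ ?_, ?_⟩
  · rw [h3]
    exact J.mul_mem_left _ hu
  · rw [pow_add, map_mul, map_mul, ← e]
    ring

theorem hom_top : HomIdeal (⊤ : Ideal (Pol k n)) := fun _ _ _ => trivial

theorem hom_sup {J : Ideal (Pol k n)} {l : Pol k n} (hJ : HomIdeal J) (hl : l.IsHomogeneous 1) :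
    HomIdeal (J ⊔ Ideal.span {l}) := by
  intro w hw d
  obtain ⟨u, hu, v, hv, rfl⟩ := Submodule.mem_sup.1 hw
  rw [map_add]
  refine Ideal.add_mem _ (Ideal.mem_sup_left (hJ u hu d)) (Ideal.mem_sup_right ?_)
  obtain ⟨a, rfl⟩ := Ideal.mem_span_singleton'.1 hv
  have ha : a * l = ∑ e ∈ Finset.range (a.totalDegree + 1), homogeneousComponent e a * l := by
    rw [← Finset.sum_mul, sum_homogeneousComponent]
  rw [ha, map_sum]
  refine Ideal.sum_mem _ fun e _ => ?_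
  have h1 : (homogeneousComponent e a * l).IsHomogeneous (e + 1) :=
    (homogeneousComponent_isHomogeneous e a).mul hl
  rw [homogeneousComponent_of_mem h1]
  split_ifs
  · exact Ideal.mul_mem_left _ _ (Ideal.mem_span_singleton_self l)
  · exact Ideal.zero_mem _

end DSC_

open DSC_ in
theorem dsc_proof (hLJX : Stmt_LJX.{u}) (hHCP : Stmt_HCP.{u}) : Stmt_DSC.{u} := by
  intro k _ n J l t hJ hl hreg hLC
  refine ⟨hom_sup hJ hl, ?_⟩
  intro j m hj x hx hsupp hcd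
  obtain ⟨π, hP1, hP2, hP3⟩ := hHCP k n
  have hS : ∀ (σ : Finset (Fin n)) (z : Fr k n), z ∈ Sl k n σ ↔ z ∈ L ⊤ σ :=
    fun σ z => (hLJX k n σ).1 z
  have hT : ∀ (σ : Finset (Fin n)) (J : Ideal (Pol k n)) (z : Fr k n),
      z ∈ toF (Sl k n σ) (genIn (Sl k n σ) (inc k n '' J)) ↔ z ∈ L J σ :=
    fun σ J z => (hLJX k n σ).2 J z
  have hxL : ∀ σ, x σ ∈ L ⊤ σ := fun σ => (hS σ _).1 (hx σ).1
  have hcL : ∀ σ, cd x σ ∈ L (J ⊔ Ideal.span {l}) σ := fun σ => (hT σ _ _).1 (hcd σ)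
  have hcd0 : ∀ σ : Finset (Fin n), σ.card ≠ j + 1 → cd x σ = 0 := fun σ hσ => cd_card hsupp hσ
  have hcdH : ∀ σ, cd x σ ∈ HF k n m := by
    intro σ
    exact cd_mem (A := fun _ => (HF k n m).toAddSubgroup) (fun σ v _ => le_rfl)
      (fun σ => (hx σ).2) σ
  -- decomposition of `cd x`
  have hUV : ∀ σ, ∃ V : Fr k n, V ∈ L ⊤ σ ∧ V ∈ HF k n (m - 1) ∧
      cd x σ - inc k n l * V ∈ L J σ := by
    intro σ
    obtain ⟨U, hU, W, hW, e⟩ := split_L (hcL σ)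
    obtain ⟨V, hV, rfl⟩ := split_l hW
    have h1 := hP1 (m - 1) σ ⊤ hom_top V hV
    refine ⟨π (m - 1) V, h1.1, h1.2, ?_⟩
    have h2 : π m (cd x σ) = cd x σ :=
      (hP2 m σ _ (L_le le_top σ (hcL σ)) (hcdH σ)).1
    have h3 := hP3 (m - 1) σ V hV 1 l hl
    rw [show m - 1 + ((1 : ℕ) : ℤ) = m by push_cast; ring] at h3
    have h4 : cd x σ - inc k n l * π (m - 1) V = π m U := by
      rw [← h2, e, map_add, h3, add_sub_cancel_right]
    rw [h4]
    exact (hP1 m σ J hJ U hU).1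
  choose V hV1 hV2 hV3 using hUV
  let w : Finset (Fin n) → Fr k n := fun σ => if σ.card = j + 1 then V σ else 0
  have hw1 : ∀ σ, w σ ∈ L ⊤ σ := by
    intro σ
    show (if σ.card = j + 1 then V σ else 0) ∈ L ⊤ σ
    split_ifs
    · exact hV1 σ
    · exact zero_mem _
  have hw2 : ∀ σ, w σ ∈ HF k n (m - 1) := by
    intro σ
    show (if σ.card = j + 1 then V σ else 0) ∈ HF k n (m - 1)
    split_ifs
    · exact hV2 σ
    · exact zero_mem _
  have hw0 : ∀ σ : Finset (Fin n), σ.card ≠ j + 1 → w σ = 0 := fun σ hσ => if_neg hσ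
  have hw3 : ∀ σ, cd x σ - inc k n l * w σ ∈ L J σ := by
    intro σ
    by_cases hσ : σ.card = j + 1
    · have : w σ = V σ := if_pos hσ
      rw [this]
      exact hV3 σ
    · rw [hw0 σ hσ, hcd0 σ hσ, mul_zero, sub_zero]
      exact zero_mem _
  have hlw : ∀ z : Finset (Fin n) → Fr k n,
      cd (fun σ => inc k n l * z σ) = fun σ => inc k n l * cd z σ := by
    intro z
    have := cd_smul (inc k n l) z
    exact this
  have hw4 : ∀ σ, cd w σ ∈ L J σ := by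
    intro σ
    refine reg_L hreg (cd_L hw1 σ) ?_
    have h1 : cd (cd x - fun σ => inc k n l * w σ) σ ∈ L J σ := cd_L hw3 σ
    rw [cd_sub, cd_cd, hlw] at h1
    have h2 := neg_mem h1
    simpa using h2
  obtain ⟨y, hy1, hy2, hy3⟩ := hLC (j + 1) (m - 1) (by omega) w
    (fun σ => ⟨(hS σ _).2 (hw1 σ), hw2 σ⟩) hw0 (fun σ => (hT σ _ _).2 (hw4 σ))
  have hyL : ∀ σ, y σ ∈ L ⊤ σ := fun σ => (hS σ _).1 (hy1 σ).1
  have hy3' : ∀ σ, w σ - cd y σ ∈ L J σ := fun σ => (hT σ _ _).1 (hy3 σ)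
  have hlyH : ∀ σ, inc k n l * y σ ∈ HF k n m := by
    intro σ
    have h3 := hP3 (m - 1) σ (y σ) (hyL σ) 1 l hl
    rw [show m - 1 + ((1 : ℕ) : ℤ) = m by push_cast; ring,
      (hP2 (m - 1) σ (y σ) (hyL σ) (hy1 σ).2).1] at h3
    rw [← h3]
    exact (hP1 m σ ⊤ hom_top _ (mul_L l (hyL σ))).2
  let x' : Finset (Fin n) → Fr k n := x - fun σ => inc k n l * y σ
  have hx'e : ∀ σ, x' σ = x σ - inc k n l * y σ := fun σ => rfl
  have hx'c : ∀ σ, cd x' σ ∈ L J σ := by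
    intro σ
    have h1 : cd x' σ = (cd x σ - inc k n l * w σ) + inc k n l * (w σ - cd y σ) := by
      show cd (x - fun σ => inc k n l * y σ) σ = _
      rw [cd_sub, hlw, Pi.sub_apply]
      ring
    rw [h1]
    exact add_mem (hw3 σ) (mul_L l (hy3' σ))
  obtain ⟨y', hy'1, hy'2, hy'3⟩ := hLC j m (by omega) x'
    (fun σ => by
      rw [hx'e]
      exact ⟨(hS σ _).2 (sub_mem (hxL σ) (mul_L l (hyL σ))), sub_mem (hx σ).2 (hlyH σ)⟩)
    (fun σ hσ => by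
      rw [hx'e, hsupp σ hσ, hy2 σ (by omega), mul_zero, sub_zero])
    (fun σ => (hT σ _ _).2 (hx'c σ))
  refine ⟨y', hy'1, hy'2, ?_⟩
  intro σ
  refine (hT σ _ _).2 ?_
  have h1 : x' σ - cd y' σ ∈ L J σ := (hT σ _ _).1 (hy'3 σ)
  have h2 : x σ - cd y' σ = (x' σ - cd y' σ) + inc k n l * y σ := by
    rw [hx'e]
    ring
  rw [h2]
  exact add_mem (L_le le_sup_left σ h1)
    (mul_L' (Ideal.mem_sup_right (Ideal.mem_span_singleton_self l)) (hyL σ))

end Pool.Agent.DBX.CMD
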