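import Pool.Agent.DBX.CMD.Stmts

set_option autoImplicit false

namespace Pool.Agent.DBX.CMD

open MvPolynomial Pool.Agent.DBX

universe u v

namespace FB1_

variable {k : Type u} [Field k] {n : ℕ} (K : Ideal (Pol k n))

/-- images of the monomials -/
noncomputable def mvec (s : Fin n →₀ ℕ) : Pol k n ⧸ K := Ideal.Quotient.mkₐ k K (monomial s 1)

theorem lc (c : (Fin n →₀ ℕ) →₀ k) : Finsupp.linearCombination k (mvec K) c =
    Ideal.Quotient.mkₐ k K (c.sum (fun s f => monomial s f)) := by
  rw [Finsupp.linearCombination_apply, Finsupp.sum, Finsupp.sum, map_sum]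
  refine Finset.sum_congr rfl ?_
  intro s _
  unfold mvec
  rw [← map_smul, smul_monomial, smul_eq_mul, mul_one]

end FB1_

open FB1_ in
theorem fb1_proof : Stmt_FB1.{u} := by
  intro k _ n K
  obtain ⟨B, -, -, hsp, hli⟩ := exists_linearIndepOn_extension (K := k) (v := mvec (k := k) K)
    (linearIndepOn_empty k (mvec (k := k) K)) (Set.subset_univ ∅)
  refine ⟨B, ?_, ?_⟩
  · intro w
    have h1 : Ideal.Quotient.mkₐ k K w ∈ Submodule.span k (mvec (k := k) K '' B) := by
      induction w using MvPolynomial.induction_on' with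
      | monomial s a =>
        have e : (monomial s a : Pol k n) = a • monomial s 1 := by
          rw [smul_monomial, smul_eq_mul, mul_one]
        rw [e, map_smul]
        exact Submodule.smul_mem _ _ (hsp ⟨s, Set.mem_univ s, rfl⟩)
      | add p q hp hq =>
        rw [map_add]
        exact Submodule.add_mem _ hp hq
    rw [Finsupp.mem_span_image_iff_linearCombination] at h1
    obtain ⟨c, hc, e⟩ := h1
    refine ⟨c, ?_, ?_⟩
    · intro s hs
      exact (Finsupp.mem_supported k c).1 hc (Finsupp.mem_support_iff.2 hs)
    · rw [lc] at e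
      rw [← Ideal.Quotient.eq]
      exact e.symm
  · intro c hc hK
    rw [linearIndepOn_iff] at hli
    refine hli c ?_ ?_
    · rw [Finsupp.mem_supported]
      intro s hs
      exact hc s (Finsupp.mem_support_iff.1 hs)
    · rw [lc]
      exact Ideal.Quotient.eq_zero_iff_mem.2 hK

end Pool.Agent.DBX.CMD
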