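import Pool.Agent.DBX.CMD.Stmts

set_option autoImplicit false

/-! # MP_2c751f_ag, squad DBX, area CMD: module FB2 -/

namespace Pool.Agent.DBX.CMD

open MvPolynomial Pool.Agent.DBX

universe u v

namespace FB2_

section
variable {k : Type u} [Field k] {n d : ℕ}

/-- the value of a combination -/
noncomputable def Phi (l : ℕ → Pol k n) (c : (Fin n →₀ ℕ) →₀ MvPolynomial (Fin d) k) : Pol k n :=
  c.sum (fun s f => aeval (fun i : Fin d => l i) f * monomial s 1)

theorem Phi_zero (l : ℕ → Pol k n) :
    Phi l (0 : (Fin n →₀ ℕ) →₀ MvPolynomial (Fin d) k) = 0 := Finsupp.sum_zero_index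

theorem Phi_add (l : ℕ → Pol k n) (c c' : (Fin n →₀ ℕ) →₀ MvPolynomial (Fin d) k) :
    Phi l (c + c') = Phi l c + Phi l c' := by
  unfold Phi
  rw [Finsupp.sum_add_index']
  · intro s; rw [map_zero, zero_mul]
  · intro s f g; rw [map_add, add_mul]

theorem Phi_single (l : ℕ → Pol k n) (s : Fin n →₀ ℕ) (f : MvPolynomial (Fin d) k) :
    Phi l (Finsupp.single s f) = aeval (fun i : Fin d => l i) f * monomial s 1 := by
  unfold Phi
  rw [Finsupp.sum_single_index]
  rw [map_zero, zero_mul]

theorem Phi_smul (l : ℕ → Pol k n) (g : MvPolynomial (Fin d) k)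
    (c : (Fin n →₀ ℕ) →₀ MvPolynomial (Fin d) k) :
    Phi l (c.mapRange (fun f => g * f) (mul_zero g)) =
      aeval (fun i : Fin d => l i) g * Phi l c := by
  unfold Phi
  rw [Finsupp.sum_mapRange_index (fun s => by rw [map_zero, zero_mul]), Finsupp.mul_sum]
  refine Finsupp.sum_congr (fun s _ => ?_)
  rw [map_mul, mul_assoc]

/-- the polynomials which have a representation -/
def M (I : Ideal (Pol k n)) (d : ℕ) (l : ℕ → Pol k n) (B : Set (Fin n →₀ ℕ)) : Set (Pol k n) :=
  {w | ∃ c : (Fin n →₀ ℕ) →₀ MvPolynomial (Fin d) k, (∀ s, c s ≠ 0 → s ∈ B) ∧ w - Phi l c ∈ I}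

variable {I : Ideal (Pol k n)} {l : ℕ → Pol k n} {B : Set (Fin n →₀ ℕ)}

theorem M_of_mem {w : Pol k n} (h : w ∈ I) : w ∈ M I d l B :=
  ⟨0, fun s hs => absurd rfl hs, by rw [Phi_zero, sub_zero]; exact h⟩

theorem M_add {w w' : Pol k n} (h : w ∈ M I d l B) (h' : w' ∈ M I d l B) :
    w + w' ∈ M I d l B := by
  obtain ⟨c, hc, hw⟩ := h
  obtain ⟨c', hc', hw'⟩ := h'
  refine ⟨c + c', ?_, ?_⟩
  · intro s hs
    by_cases h1 : c s = 0
    · apply hc'
      intro h2
      apply hs
      rw [Finsupp.add_apply, h1, h2, add_zero]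
    · exact hc s h1
  · rw [Phi_add]
    have : w + w' - (Phi l c + Phi l c') = (w - Phi l c) + (w' - Phi l c') := by ring
    rw [this]
    exact I.add_mem hw hw'

theorem M_sum {ι : Type*} (S : Finset ι) (f : ι → Pol k n) (h : ∀ i ∈ S, f i ∈ M I d l B) :
    ∑ i ∈ S, f i ∈ M I d l B := by
  classical
  induction S using Finset.induction_on with
  | empty => rw [Finset.sum_empty]; exact M_of_mem I.zero_mem
  | insert a S ha ih =>
    rw [Finset.sum_insert ha]
    exact M_add (h a (Finset.mem_insert_self a S))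
      (ih (fun i hi => h i (Finset.mem_insert_of_mem hi)))

theorem M_mul {w : Pol k n} (h : w ∈ M I d l B) (j : Fin d) : w * l j ∈ M I d l B := by
  obtain ⟨c, hc, hw⟩ := h
  refine ⟨c.mapRange (fun f => X j * f) (mul_zero _), ?_, ?_⟩
  · intro s hs
    apply hc
    intro h1
    apply hs
    rw [Finsupp.mapRange_apply, h1, mul_zero]
  · rw [Phi_smul, aeval_X]
    have : w * l j - l j * Phi l c = l j * (w - Phi l c) := by ring
    rw [this]
    exact I.mul_mem_left _ hw

theorem M_monomial {s : Fin n →₀ ℕ} (hs : s ∈ B) (a : k) : monomial s a ∈ M I d l B := by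
  classical
  refine ⟨Finsupp.single s (C a), ?_, ?_⟩
  · intro t ht
    by_cases h : s = t
    · rw [← h]; exact hs
    · rw [Finsupp.single_apply, if_neg h] at ht
      exact absurd rfl ht
  · rw [Phi_single, aeval_C]
    have : (algebraMap k (Pol k n)) a * monomial s 1 = monomial s a := by
      rw [MvPolynomial.algebraMap_eq, C_mul_monomial, mul_one]
    rw [this, sub_self]
    exact I.zero_mem

theorem comp_mul (P b : Pol k n) (hb : b.IsHomogeneous 1) (D : ℕ) :
    homogeneousComponent (D + 1) (P * b) = homogeneousComponent D P * b := by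
  have h1 : P * b = ∑ e ∈ Finset.range (P.totalDegree + 1), homogeneousComponent e P * b := by
    rw [← Finset.sum_mul, sum_homogeneousComponent]
  have hd : ∀ e : ℕ, (homogeneousComponent e P * b).IsHomogeneous (e + 1) := fun e =>
    (homogeneousComponent_isHomogeneous e P).mul hb
  rw [h1, map_sum, Finset.sum_eq_single D]
  · rw [homogeneousComponent_of_mem (hd _), if_pos rfl]
  · intro e _ he
    rw [homogeneousComponent_of_mem (hd _), if_neg (by omega)]
  · intro h3
    rw [Finset.mem_range, not_lt] at h3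
    have h4 : homogeneousComponent D P = 0 := homogeneousComponent_eq_zero _ _ (by omega)
    rw [h4, zero_mul, map_zero]

theorem comp_mul_zero (P b : Pol k n) (hb : b.IsHomogeneous 1) :
    homogeneousComponent 0 (P * b) = 0 := by
  rw [homogeneousComponent_zero]
  have h0 : coeff 0 (P * b) = coeff 0 P * coeff 0 b := map_mul constantCoeff P b
  rw [h0]
  have h1 : coeff 0 b = 0 := by
    by_contra h
    have h2 := hb h
    simp at h2
  rw [h1, mul_zero, C_0]

end

end FB2_

open FB2_

theorem fb2_proof : Stmt_FB2.{u} := by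
  intro k _ n I d l B hI hl hB
  classical
  have hom : ∀ D : ℕ, ∀ w : Pol k n, w.IsHomogeneous D → w ∈ M I d l B := by
    intro D
    induction D using Nat.strong_induction_on with
    | _ D ih =>
      intro w hw
      obtain ⟨c, hc, hm⟩ := hB w
      have hrange : l '' {j | j < d} = Set.range (fun i : Fin d => l i) := by
        ext z
        constructor
        · rintro ⟨j, hj, rfl⟩
          exact ⟨⟨j, hj⟩, rfl⟩
        · rintro ⟨i, rfl⟩
          exact ⟨i, i.2, rfl⟩
      unfold KI at hm
      rw [hrange] at hm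
      obtain ⟨u, hu, v, hv, huv⟩ := Submodule.mem_sup.mp hm
      obtain ⟨f, hf⟩ := (Ideal.mem_span_range_iff_exists_fun).mp hv
      have h1 : w = c.sum (fun s f => monomial s f) + u + ∑ i : Fin d, f i * l i := by
        rw [hf, add_assoc, huv]; ring
      have h2 : w = homogeneousComponent D w := by
        rw [homogeneousComponent_of_mem hw, if_pos rfl]
      rw [h2, h1, map_add, map_add, map_sum, Finsupp.sum, map_sum]
      refine M_add (M_add (M_sum _ _ ?_) (M_of_mem (hI u hu D))) (M_sum _ _ ?_)
      · intro s hs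
        have hsB : s ∈ B := hc s (Finsupp.mem_support_iff.mp hs)
        have h3 : (monomial s (c s) : Pol k n).IsHomogeneous s.degree :=
          isHomogeneous_monomial _ rfl
        rw [homogeneousComponent_of_mem h3]
        split_ifs
        · exact M_monomial hsB _
        · exact M_of_mem I.zero_mem
      · intro i _
        rcases Nat.eq_zero_or_pos D with h3 | h3
        · rw [h3, comp_mul_zero _ _ (hl i)]
          exact M_of_mem I.zero_mem
        · obtain ⟨D', rfl⟩ : ∃ D', D = D' + 1 := ⟨D - 1, by omega⟩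
          rw [comp_mul _ _ (hl i)]
          exact M_mul (ih D' (by omega) _ (homogeneousComponent_isHomogeneous D' _)) i
  intro w
  have h1 : w ∈ M I d l B := by
    rw [← sum_homogeneousComponent w]
    exact M_sum _ _ (fun e _ => hom e _ (homogeneousComponent_isHomogeneous e _))
  exact h1

end Pool.Agent.DBX.CMD
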