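import Pool.Agent.DBX.CMD.Stmts

set_option autoImplicit false

/-! # CMD / FB3: the monomials are linearly independent over `k[l_0, …, l_{d-1}]` -/

namespace Pool.Agent.DBX.CMD

open MvPolynomial Pool.Agent.DBX

universe u v

namespace FB3_

variable {k : Type u} [Field k] {n : ℕ}

/-- the sum -/
noncomputable def S {d : ℕ} (l : ℕ → Pol k n) (c : (Fin n →₀ ℕ) →₀ MvPolynomial (Fin d) k) :
    Pol k n :=
  c.sum (fun s f => aeval (fun i : Fin d => l i) f * monomial s 1)

theorem KI_zero (I : Ideal (Pol k n)) (l : ℕ → Pol k n) : KI I l 0 = I := by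
  unfold KI
  have : {j : ℕ | j < 0} = ∅ := by
    ext j; simp
  rw [this, Set.image_empty, Ideal.span_empty, sup_bot_eq]

theorem KI_le (I : Ideal (Pol k n)) (l : ℕ → Pol k n) (i : ℕ) : KI I l i ≤ KI I l (i + 1) := by
  unfold KI
  apply sup_le_sup_left
  apply Ideal.span_mono
  apply Set.image_mono
  intro j hj
  exact Nat.lt_succ_of_lt hj

theorem mem_KI (I : Ideal (Pol k n)) (l : ℕ → Pol k n) (i : ℕ) : l i ∈ KI I l (i + 1) := by
  unfold KI
  apply Ideal.mem_sup_right
  apply Ideal.subset_span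
  exact ⟨i, Nat.lt_succ_self i, rfl⟩

/-- only the variables `T_j`, `j ≥ i`, occur -/
def Vars {d : ℕ} (i : ℕ) (c : (Fin n →₀ ℕ) →₀ MvPolynomial (Fin d) k) : Prop :=
  ∀ s (m : Fin d →₀ ℕ), coeff m (c s) ≠ 0 → ∀ j : Fin d, (j : ℕ) < i → m j = 0

/-- degrees are less than `D` -/
def Deg {d : ℕ} (D : ℕ) (c : (Fin n →₀ ℕ) →₀ MvPolynomial (Fin d) k) : Prop :=
  ∀ s (m : Fin d →₀ ℕ), coeff m (c s) ≠ 0 → (m.sum fun _ e => e) < D

theorem deg_exists {d : ℕ} (c : (Fin n →₀ ℕ) →₀ MvPolynomial (Fin d) k) : ∃ D, Deg D c := by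
  refine ⟨c.support.sup (fun s => (c s).totalDegree) + 1, ?_⟩
  intro s m hm
  have hs : s ∈ c.support := by
    rw [Finsupp.mem_support_iff]
    intro h
    rw [h, coeff_zero] at hm
    exact hm rfl
  have h1 : (m.sum fun _ e => e) ≤ (c s).totalDegree :=
    le_totalDegree (mem_support_iff.2 hm)
  have h2 : (c s).totalDegree ≤ c.support.sup (fun s => (c s).totalDegree) :=
    Finset.le_sup (f := fun s => (c s).totalDegree) hs
  omega

/-- quotient by `T_i` -/
noncomputable def dv {d : ℕ} (i : Fin d) (c : (Fin n →₀ ℕ) →₀ MvPolynomial (Fin d) k) :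
    (Fin n →₀ ℕ) →₀ MvPolynomial (Fin d) k :=
  c.mapRange (fun f => divMonomial f (Finsupp.single i 1)) (by simp)

theorem zmod {d : ℕ} (i : Fin d) :
    modMonomial (0 : MvPolynomial (Fin d) k) (Finsupp.single i 1) = 0 := by
  ext m
  by_cases h : Finsupp.single i 1 ≤ m
  · rw [coeff_modMonomial_of_le _ h, coeff_zero]
  · rw [coeff_modMonomial_of_not_le _ h]

/-- remainder modulo `T_i` -/
noncomputable def md {d : ℕ} (i : Fin d) (c : (Fin n →₀ ℕ) →₀ MvPolynomial (Fin d) k) :
    (Fin n →₀ ℕ) →₀ MvPolynomial (Fin d) k :=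
  c.mapRange (fun f => modMonomial f (Finsupp.single i 1)) (zmod i)

theorem S_split {d : ℕ} (l : ℕ → Pol k n) (i : Fin d)
    (c : (Fin n →₀ ℕ) →₀ MvPolynomial (Fin d) k) :
    S l c = l i * S l (dv i c) + S l (md i c) := by
  unfold S dv md
  rw [Finsupp.sum_mapRange_index (by intro a; simp), Finsupp.sum_mapRange_index (by intro a; simp)]
  unfold Finsupp.sum
  rw [Finset.mul_sum, ← Finset.sum_add_distrib]
  refine Finset.sum_congr rfl fun s _ => ?_
  have h := divMonomial_add_modMonomial_single (c s) i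
  have h2 : aeval (fun i : Fin d => l i) (c s) =
      l i * aeval (fun i : Fin d => l i) (divMonomial (c s) (Finsupp.single i 1)) +
      aeval (fun i : Fin d => l i) (modMonomial (c s) (Finsupp.single i 1)) := by
    conv_lhs => rw [← h]
    rw [map_add, map_mul, aeval_X]
  show aeval (fun i : Fin d => l i) (c s) * monomial s 1 =
    l i * (aeval (fun i : Fin d => l i) (divMonomial (c s) (Finsupp.single i 1)) *
      monomial s 1) +
    aeval (fun i : Fin d => l i) (modMonomial (c s) (Finsupp.single i 1)) * monomial s 1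
  rw [h2]
  ring

theorem coeff_dv {d : ℕ} (i : Fin d) (c : (Fin n →₀ ℕ) →₀ MvPolynomial (Fin d) k)
    (s : Fin n →₀ ℕ) (m : Fin d →₀ ℕ) :
    coeff m (dv i c s) = coeff (Finsupp.single i 1 + m) (c s) := by
  unfold dv
  rw [Finsupp.mapRange_apply, coeff_divMonomial]

theorem dv_vars {d : ℕ} {i : Fin d} {a : ℕ} {c : (Fin n →₀ ℕ) →₀ MvPolynomial (Fin d) k}
    (h : Vars a c) : Vars a (dv i c) := by
  intro s m hm j hj
  rw [coeff_dv] at hm
  have := h s _ hm j hj
  rw [Finsupp.add_apply] at this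
  omega

theorem dv_deg {d : ℕ} {i : Fin d} {D : ℕ} {c : (Fin n →₀ ℕ) →₀ MvPolynomial (Fin d) k}
    (h : Deg (D + 1) c) : Deg D (dv i c) := by
  intro s m hm
  rw [coeff_dv] at hm
  have := h s _ hm
  rw [Finsupp.sum_add_index' (by simp) (by simp), Finsupp.sum_single_index rfl] at this
  omega

theorem md_vars {d : ℕ} {i : Fin d} {c : (Fin n →₀ ℕ) →₀ MvPolynomial (Fin d) k}
    (h : Vars i c) : Vars ((i : ℕ) + 1) (md i c) := by
  intro s m hm j hj
  unfold md at hm
  rw [Finsupp.mapRange_apply] at hm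
  by_cases hle : Finsupp.single i 1 ≤ m
  · rw [coeff_modMonomial_of_le _ hle] at hm
    exact absurd rfl hm
  · rw [coeff_modMonomial_of_not_le _ hle] at hm
    by_cases hji : (j : ℕ) < i
    · exact h s m hm j hji
    · have : j = i := Fin.ext (by omega)
      subst this
      by_contra hne
      apply hle
      rw [Finsupp.single_le_iff]
      omega

theorem dv_supp {d : ℕ} {i : Fin d} {c : (Fin n →₀ ℕ) →₀ MvPolynomial (Fin d) k}
    {s : Fin n →₀ ℕ} (h : dv i c s ≠ 0) : c s ≠ 0 := by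
  intro h0
  apply h
  unfold dv
  rw [Finsupp.mapRange_apply, h0, zero_divMonomial]

theorem md_supp {d : ℕ} {i : Fin d} {c : (Fin n →₀ ℕ) →₀ MvPolynomial (Fin d) k}
    {s : Fin n →₀ ℕ} (h : md i c s ≠ 0) : c s ≠ 0 := by
  intro h0
  apply h
  unfold md
  rw [Finsupp.mapRange_apply, h0, zmod]

theorem eq_zero {d : ℕ} {i : Fin d} {c : (Fin n →₀ ℕ) →₀ MvPolynomial (Fin d) k}
    (h1 : dv i c = 0) (h2 : md i c = 0) : c = 0 := by
  ext1 s
  have h := divMonomial_add_modMonomial_single (c s) i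
  have e1 : divMonomial (c s) (Finsupp.single i 1) = 0 := by
    have := DFunLike.congr_fun h1 s
    rwa [dv, Finsupp.mapRange_apply] at this
  have e2 : modMonomial (c s) (Finsupp.single i 1) = 0 := by
    have := DFunLike.congr_fun h2 s
    rwa [md, Finsupp.mapRange_apply] at this
  rw [e1, e2, mul_zero, zero_add] at h
  rw [← h]
  rfl

/-- the base case -/
theorem base {d : ℕ} (I : Ideal (Pol k n)) (l : ℕ → Pol k n) (B : Set (Fin n →₀ ℕ))
    (hB : ∀ c : (Fin n →₀ ℕ) →₀ k, (∀ s, c s ≠ 0 → s ∈ B) →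
      c.sum (fun s f => monomial s f) ∈ KI I l d → c = 0)
    (c : (Fin n →₀ ℕ) →₀ MvPolynomial (Fin d) k) (hc : ∀ s, c s ≠ 0 → s ∈ B)
    (hv : Vars d c) (hS : S l c ∈ KI I l d) : c = 0 := by
  have hC : ∀ s, c s = C (coeff 0 (c s)) := by
    intro s
    ext m
    rw [coeff_C]
    split_ifs with h
    · rw [← h]
    · by_contra hne
      apply h
      ext j
      exact (hv s m hne j j.2).symm
  have h0 := hB (c.mapRange (coeff 0) (coeff_zero 0)) ?_ ?_
  · ext1 s
    rw [hC s]
    have := DFunLike.congr_fun h0 s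
    rw [Finsupp.mapRange_apply, Finsupp.zero_apply] at this
    rw [this, map_zero]
    rfl
  · intro s hs
    apply hc
    intro h
    apply hs
    rw [Finsupp.mapRange_apply, h, coeff_zero]
  · rw [Finsupp.sum_mapRange_index (by intro a; simp)]
    unfold S at hS
    convert hS using 1
    unfold Finsupp.sum
    refine Finset.sum_congr rfl fun s _ => ?_
    rw [hC s]
    show monomial s (coeff 0 (C (coeff 0 (c s)) : MvPolynomial (Fin d) k)) =
      aeval (fun i : Fin d => l i) (C (coeff 0 (c s)) : MvPolynomial (Fin d) k) * monomial s 1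
    rw [coeff_C, if_pos rfl, aeval_C]
    show _ = C (coeff 0 (c s)) * monomial s 1
    rw [C_mul_monomial, mul_one]

theorem claim {d : ℕ} (I : Ideal (Pol k n)) (l : ℕ → Pol k n) (B : Set (Fin n →₀ ℕ))
    (hR : ∀ i, i < d → Reg (KI I l i) (l i))
    (hB : ∀ c : (Fin n →₀ ℕ) →₀ k, (∀ s, c s ≠ 0 → s ∈ B) →
      c.sum (fun s f => monomial s f) ∈ KI I l d → c = 0) :
    ∀ e i : ℕ, e + i = d → ∀ c : (Fin n →₀ ℕ) →₀ MvPolynomial (Fin d) k,
      (∀ s, c s ≠ 0 → s ∈ B) → Vars i c → S l c ∈ KI I l i → c = 0 := by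
  intro e
  induction e with
  | zero =>
    intro i hi c hc hv hS
    rw [zero_add] at hi
    subst hi
    exact base I l B hB c hc hv hS
  | succ e ih =>
    intro i hi
    have hid : i < d := by omega
    have key : ∀ (D : ℕ) (c : (Fin n →₀ ℕ) →₀ MvPolynomial (Fin d) k), Deg D c →
        (∀ s, c s ≠ 0 → s ∈ B) → Vars i c → S l c ∈ KI I l i → c = 0 := by
      intro D
      induction D with
      | zero =>
        intro c hD _ _ _
        ext1 s
        show c s = 0
        ext m
        rw [coeff_zero]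
        by_contra h
        exact absurd (hD s m h) (Nat.not_lt_zero _)
      | succ D ihD =>
        intro c hD hc hv hS
        have hsp := S_split l (⟨i, hid⟩ : Fin d) c
        have hli : l ((⟨i, hid⟩ : Fin d) : ℕ) = l i := rfl
        rw [hli] at hsp
        have hm : S l (md ⟨i, hid⟩ c) ∈ KI I l (i + 1) := by
          have e1 : S l (md ⟨i, hid⟩ c) = S l c - l i * S l (dv ⟨i, hid⟩ c) := by
            rw [hsp]; ring
          rw [e1]
          exact Ideal.sub_mem _ (KI_le I l i hS) (Ideal.mul_mem_right _ _ (mem_KI I l i))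
        have h2 : md ⟨i, hid⟩ c = 0 :=
          ih (i + 1) (by omega) _ (fun s hs => hc s (md_supp hs)) (md_vars (i := ⟨i, hid⟩) hv) hm
        have h3 : l i * S l (dv ⟨i, hid⟩ c) ∈ KI I l i := by
          have e2 : S l (md ⟨i, hid⟩ c) = 0 := by
            rw [h2]; exact Finsupp.sum_zero_index
          rw [e2, add_zero] at hsp
          rw [← hsp]
          exact hS
        have h4 := hR i hid _ h3
        have h1 : dv ⟨i, hid⟩ c = 0 :=
          ihD _ (dv_deg hD) (fun s hs => hc s (dv_supp hs)) (dv_vars hv) h4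
        exact eq_zero h1 h2
    intro c hc hv hS
    obtain ⟨D, hD⟩ := deg_exists c
    exact key D c hD hc hv hS

end FB3_

open FB3_ in
theorem fb3_proof : Stmt_FB3.{u} := by
  intro k _ n I d l B hR hB c hc hS
  refine claim I l B hR hB d 0 (by omega) c hc ?_ ?_
  · intro s m _ j hj
    exact absurd hj (Nat.not_lt_zero _)
  · rw [KI_zero]
    exact hS

end Pool.Agent.DBX.CMD
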