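import Pool.Agent.DBX.CMD.Stmts

set_option autoImplicit false

/-! # MP_2c751f_ag, squad DBX, area CMD, module FLT -/

namespace Pool.Agent.DBX.CMD

open MvPolynomial Pool.Agent.DBX

universe u v

theorem flt_proof (hFB1 : Stmt_FB1.{u}) (hFB2 : Stmt_FB2.{u}) (hFB3 : Stmt_FB3.{u}) :
    Stmt_FLT.{u} := by
  intro k _ n I d l hI hl hreg
  obtain ⟨B, hB1, hB2⟩ := hFB1 k n (KI I l d)
  have h2 := hFB2 k n I d l B hI hl hB1
  have h3 := hFB3 k n I d l B hreg hB2
  set φ : MvPolynomial (Fin d) k →+* (Pol k n ⧸ I) :=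
    (MvPolynomial.aeval (R := k) (fun i : Fin d => Ideal.Quotient.mk I (l i))).toRingHom with hφ
  have hφa : ∀ f : MvPolynomial (Fin d) k,
      φ f = Ideal.Quotient.mk I (aeval (fun i : Fin d => l i) f) := by
    intro f
    have h := MvPolynomial.comp_aeval_apply (R := k) (fun i : Fin d => l i)
      (Ideal.Quotient.mkₐ k I) f
    exact h.symm
  letI : Algebra (MvPolynomial (Fin d) k) (Pol k n ⧸ I) := φ.toAlgebra
  have hsm : ∀ (f : MvPolynomial (Fin d) k) (r : Pol k n ⧸ I), f • r = φ f * r := fun f r => rfl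
  set Φ : (B →₀ MvPolynomial (Fin d) k) →ₗ[MvPolynomial (Fin d) k] (Pol k n ⧸ I) :=
    Finsupp.linearCombination _ (fun s : B => Ideal.Quotient.mk I (monomial (s : Fin n →₀ ℕ) 1))
    with hΦ
  have hΦa : ∀ c : B →₀ MvPolynomial (Fin d) k, Φ c =
      Ideal.Quotient.mk I (c.sum (fun s f => aeval (fun i : Fin d => l i) f *
        monomial (s : Fin n →₀ ℕ) 1)) := by
    intro c
    rw [hΦ, Finsupp.linearCombination_apply, Finsupp.sum, Finsupp.sum, map_sum]
    refine Finset.sum_congr rfl fun s _ => ?_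
    rw [hsm, hφa, map_mul]
  have hinj : Function.Injective Φ := by
    rw [injective_iff_map_eq_zero]
    intro c hc
    rw [hΦa, Ideal.Quotient.eq_zero_iff_mem] at hc
    have h4 := h3 (c.embDomain (Function.Embedding.subtype _)) ?_ ?_
    · ext1 s
      have h5 := DFunLike.congr_fun h4 (s : Fin n →₀ ℕ)
      have h6 : (c.embDomain (Function.Embedding.subtype _)) (s : Fin n →₀ ℕ) = c s :=
        Finsupp.embDomain_apply_self (Function.Embedding.subtype _) c s
      rw [h6] at h5
      exact h5
    · intro s hs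
      by_contra hsB
      apply hs
      apply Finsupp.embDomain_notin_range
      rintro ⟨s', rfl⟩
      exact hsB s'.2
    · rw [Finsupp.sum_embDomain]
      exact hc
  have hsurj : Function.Surjective Φ := by
    intro r
    obtain ⟨w, rfl⟩ := Ideal.Quotient.mk_surjective r
    obtain ⟨c, hc1, hc2⟩ := h2 w
    refine ⟨c.comapDomain Subtype.val Subtype.val_injective.injOn, ?_⟩
    rw [hΦa]
    have h5 : (c.comapDomain (Subtype.val : B → (Fin n →₀ ℕ)) Subtype.val_injective.injOn).sum
        (fun s f => aeval (fun i : Fin d => l i) f * monomial (s : Fin n →₀ ℕ) 1) =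
        c.sum (fun s f => aeval (fun i : Fin d => l i) f * monomial s 1) := by
      apply Finsupp.sum_comapDomain (Subtype.val : B → (Fin n →₀ ℕ)) c
        (fun s f => aeval (fun i : Fin d => l i) f * monomial s 1)
      refine ⟨fun s hs => ?_, Subtype.val_injective.injOn, fun s hs => ?_⟩
      · simpa using hs
      · have hs' : c s ≠ 0 := by simpa using hs
        exact ⟨⟨s, hc1 s hs'⟩, by simpa using hs', rfl⟩
    rw [h5]
    exact (Ideal.Quotient.eq.2 hc2).symm
  have hfree : Module.Free (MvPolynomial (Fin d) k) (Pol k n ⧸ I) :=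
    Module.Free.of_equiv (LinearEquiv.ofBijective Φ ⟨hinj, hsurj⟩)
  have hflat : Module.Flat (MvPolynomial (Fin d) k) (Pol k n ⧸ I) := inferInstance
  exact hflat

end Pool.Agent.DBX.CMD
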