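import Pool.Agent.DBX.CMD.Stmts

set_option autoImplicit false

namespace Pool.Agent.DBX.CMD

open MvPolynomial Pool.Agent.DBX

universe u v

namespace FN1_

theorem homIdeal_sup_span {k : Type u} [Field k] {n : ℕ} (J : Ideal (Pol k n)) (l : Pol k n)
    (hJ : HomIdeal J) (hl : l.IsHomogeneous 1) : HomIdeal (J ⊔ Ideal.span {l}) := by
  intro w hw d
  obtain ⟨a, ha, b, hb, rfl⟩ := Submodule.mem_sup.1 hw
  obtain ⟨c, rfl⟩ := Ideal.mem_span_singleton'.1 hb
  rw [map_add]
  refine Ideal.add_mem _ (Ideal.mem_sup_left (hJ a ha d)) (Ideal.mem_sup_right ?_)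
  rw [← sum_homogeneousComponent c, Finset.sum_mul, map_sum]
  refine Ideal.sum_mem _ fun e _ => ?_
  have h1 : (homogeneousComponent e c * l).IsHomogeneous (e + 1) :=
    (homogeneousComponent_isHomogeneous e c).mul hl
  rw [homogeneousComponent_of_mem h1]
  split_ifs
  · exact Ideal.mul_mem_left _ _ (Ideal.mem_span_singleton_self l)
  · exact Ideal.zero_mem _

theorem KI_succ {A : Type u} [CommRing A] (I : Ideal A) (l : ℕ → A) (i : ℕ) :
    KI I l (i + 1) = KI I l i ⊔ Ideal.span {l i} := by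
  unfold KI
  have : {j | j < i + 1} = insert i {j | j < i} := by
    ext j
    simp only [Set.mem_setOf_eq, Set.mem_insert_iff]
    omega
  rw [this, Set.image_insert_eq, Ideal.span_insert, sup_assoc, sup_comm (Ideal.span {l i})]

theorem KI_zero {A : Type u} [CommRing A] (I : Ideal A) (l : ℕ → A) :
    KI I l 0 = I := by
  unfold KI
  simp

theorem dim_step {A : Type u} [CommRing A] (J : Ideal A) (l : A) (h : Reg J l) :
    ringKrullDim (A ⧸ (J ⊔ Ideal.span {l})) + 1 ≤ ringKrullDim (A ⧸ J) := by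
  have hr : Ideal.Quotient.mk J l ∈ nonZeroDivisors (A ⧸ J) := by
    rw [mem_nonZeroDivisors_iff_right]
    intro x hx
    obtain ⟨w, rfl⟩ := Ideal.Quotient.mk_surjective x
    rw [← map_mul, Ideal.Quotient.eq_zero_iff_mem] at hx
    rw [Ideal.Quotient.eq_zero_iff_mem]
    exact h w (by rwa [mul_comm])
  have h1 := ringKrullDim_quotient_succ_le_of_nonZeroDivisor hr
  have h2 : ringKrullDim ((A ⧸ J) ⧸ Ideal.span {Ideal.Quotient.mk J l}) =
      ringKrullDim (A ⧸ (J ⊔ Ideal.span {l})) := by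
    have h3 : (Ideal.span {l}).map (Ideal.Quotient.mk J) =
        Ideal.span {Ideal.Quotient.mk J l} := by
      rw [Ideal.map_span, Set.image_singleton]
    rw [← h3]
    exact ringKrullDim_eq_of_ringEquiv (DoubleQuot.quotQuotEquivQuotSup J (Ideal.span {l}))
  rwa [h2] at h1

theorem cancel (x : WithBot ℕ∞) (d : ℕ) (h : x + d ≤ d) : x ≤ 0 := by
  induction x using WithBot.recBotCoe with
  | bot => exact bot_le
  | coe a =>
    induction a using ENat.recTopCoe with
    | top =>
      exfalso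
      have : ((⊤ : ℕ∞) : WithBot ℕ∞) + ((d : ℕ) : WithBot ℕ∞) = ((⊤ : ℕ∞) : WithBot ℕ∞) := by
        rw [← WithBot.coe_natCast, ← WithBot.coe_add, top_add]
      rw [this, ← WithBot.coe_natCast, WithBot.coe_le_coe] at h
      exact (ENat.coe_ne_top d) (top_le_iff.1 h)
    | coe a =>
      have h' : (a + d : ℕ) ≤ d := by exact_mod_cast h
      have : a = 0 := by omega
      subst this
      exact le_rfl

end FN1_

open FN1_ in
theorem fn1_proof (hIRR : Stmt_IRR.{u}) (hHCO : Pool.Agent.DBX.ALG.Stmt_HCO.{u}) :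
    Stmt_FN1.{u} := by
  intro k _ n I d l hI hd hl hreg
  have hne : I ≠ ⊤ := by
    intro h
    have hs : Subsingleton (Pol k n ⧸ I) := Ideal.Quotient.subsingleton_iff.2 h
    rw [ringKrullDim_eq_bot_of_subsingleton] at hd
    exact absurd hd.symm (WithBot.natCast_ne_bot d)
  obtain ⟨hIle, hmax, -, -, hmem⟩ := hIRR k n I hI hne
  have hhom : ∀ i, HomIdeal (KI I l i) := by
    intro i
    induction i with
    | zero => rw [KI_zero]; exact hI
    | succ i ih => rw [KI_succ]; exact homIdeal_sup_span _ _ ih (hl i)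
  have hle : ∀ i, KI I l i ≤ Ideal.span (Set.range (X : Fin n → Pol k n)) := by
    intro i
    refine sup_le hIle ?_
    rw [Ideal.span_le]
    rintro _ ⟨j, -, rfl⟩
    rw [SetLike.mem_coe, hmem]
    exact (hl j).coeff_eq_zero (by simp)
  have hKne : ∀ i, KI I l i ≠ ⊤ := fun i h => hmax.ne_top (top_le_iff.1 (h ▸ hle i))
  have hdim : ∀ i : ℕ, i ≤ d → ringKrullDim (Pol k n ⧸ KI I l i) + i ≤ d := by
    intro i
    induction i with
    | zero =>
      intro _
      rw [KI_zero, hd]
      simp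
    | succ i ih =>
      intro hi
      have h1 := dim_step (KI I l i) (l i) (hreg i (by omega))
      rw [← KI_succ] at h1
      refine le_trans ?_ (ih (by omega))
      rw [Nat.cast_add, Nat.cast_one, add_comm (i : WithBot ℕ∞) 1, ← add_assoc]
      exact add_le_add_left h1 _
  have hK0 : ringKrullDim (Pol k n ⧸ KI I l d) ≤ 0 := cancel _ d (hdim d le_rfl)
  haveI : Ring.KrullDimLE 0 (Pol k n ⧸ KI I l d) := by
    rw [Ring.krullDimLE_iff]
    exact_mod_cast hK0
  have hmaxq : ∀ q : Ideal (Pol k n), q.IsPrime → KI I l d ≤ q → q.IsMaximal := by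
    intro q hq hKq
    have hker : RingHom.ker (Ideal.Quotient.mk (KI I l d)) ≤ q := by
      rw [Ideal.mk_ker]; exact hKq
    have hp : (q.map (Ideal.Quotient.mk (KI I l d))).IsPrime :=
      Ideal.map_isPrime_of_surjective Ideal.Quotient.mk_surjective hker
    have hm : (q.map (Ideal.Quotient.mk (KI I l d))).IsMaximal := hp.isMaximal'
    have hc := Ideal.comap_isMaximal_of_surjective (Ideal.Quotient.mk (KI I l d))
      Ideal.Quotient.mk_surjective (K := q.map (Ideal.Quotient.mk (KI I l d)))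
    rw [Ideal.comap_map_of_surjective _ Ideal.Quotient.mk_surjective] at hc
    have : q ⊔ Ideal.comap (Ideal.Quotient.mk (KI I l d)) ⊥ = q := by
      refine sup_eq_left.2 ?_
      rw [← RingHom.ker_eq_comap_bot]
      exact hker
    rwa [this] at hc
  have hX : ∀ i : Fin n, (X i : Pol k n) ∈ (KI I l d).radical := by
    intro i
    by_contra hcon
    have hN : ∀ N : ℕ, (X i : Pol k n) ^ N ∉ KI I l d := by
      intro N hN
      exact hcon ⟨N, hN⟩
    obtain ⟨q, hq, hqh, hKq, hXq⟩ := hHCO k n (KI I l d) (X i) 1 (hhom d) (isHomogeneous_X k i) hN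
    obtain ⟨hqle, -, -, -, -⟩ := hIRR k n q hqh hq.ne_top
    have hqm := hmaxq q hq hKq
    have heq := hqm.eq_of_le hmax.ne_top hqle
    apply hXq
    rw [heq]
    exact Ideal.subset_span ⟨i, rfl⟩
  refine Ideal.exists_pow_le_of_le_radical_of_fg ?_ (IsNoetherian.noetherian _)
  rw [Ideal.span_le]
  rintro _ ⟨i, rfl⟩
  exact hX i

end Pool.Agent.DBX.CMD
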