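import Pool.Agent.DBX.CMD.Stmts

set_option autoImplicit false

/-! # DBX/CMD/FN2: graded Nakayama -/

namespace Pool.Agent.DBX.CMD

open MvPolynomial Pool.Agent.DBX

universe u v

namespace FN2_

variable {k : Type u} [Field k] {n : ℕ}

theorem comp_mul (l v : Pol k n) (hl : l.IsHomogeneous 1) (D : ℕ) :
    homogeneousComponent (D + 1) (l * v) = l * homogeneousComponent D v := by
  conv_lhs => rw [← sum_homogeneousComponent v, Finset.mul_sum, map_sum]
  have h1 : ∀ i, homogeneousComponent (D + 1) (l * homogeneousComponent i v) =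
      if i = D then l * homogeneousComponent i v else 0 := by
    intro i
    have h2 : (l * homogeneousComponent i v).IsHomogeneous (1 + i) :=
      hl.mul (homogeneousComponent_isHomogeneous i v)
    rw [homogeneousComponent_of_mem ((mem_homogeneousSubmodule _ _).2 h2)]
    congr 1
    apply propext
    omega
  simp only [h1]
  by_cases hD : D ∈ Finset.range (v.totalDegree + 1)
  · rw [Finset.sum_ite_eq' , if_pos hD]
  · rw [Finset.sum_ite_eq', if_neg hD, homogeneousComponent_eq_zero, mul_zero]
    simpa using hD

theorem comp_mul_zero (l v : Pol k n) (hl : l.IsHomogeneous 1) :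
    homogeneousComponent 0 (l * v) = 0 := by
  rw [homogeneousComponent_zero]
  have h : coeff 0 l = 0 := hl.coeff_eq_zero (by simp)
  have : coeff 0 (l * v) = 0 := by
    have h2 : constantCoeff (l * v) = constantCoeff l * constantCoeff v := map_mul _ _ _
    simp only [constantCoeff_eq] at h2
    rw [h2, h, zero_mul]
  rw [this, map_zero]

theorem deg_eq {w : Pol k n} {D : ℕ} (hw : w.IsHomogeneous D) {s : Fin n →₀ ℕ}
    (hs : s ∈ w.support) : s.degree = D := by
  have := hw (mem_support_iff.1 hs)
  rw [← this, Finsupp.degree_eq_weight_one]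
  rfl

theorem mem_pow (s : Fin n →₀ ℕ) (c : k) (N : ℕ) (h : N ≤ s.degree) :
    monomial s c ∈ (Ideal.span (Set.range (X : Fin n → Pol k n))) ^ N := by
  have h1 : monomial s c = C c * ∏ i, (X i : Pol k n) ^ s i := by
    rw [monomial_eq, Finsupp.prod_fintype]
    intro i; simp
  rw [h1]
  apply Ideal.mul_mem_left
  apply Ideal.pow_le_pow_right h
  have h2 : s.degree = ∑ i, s i := by
    rw [Finsupp.degree_eq_sum]
  rw [h2, ← Finset.prod_pow_eq_pow_sum]
  apply Ideal.prod_mem_prod
  intro i _
  exact Ideal.pow_mem_pow (Ideal.subset_span (Set.mem_range_self i)) _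

theorem mem_span_lin {l : ℕ → Pol k n} {d : ℕ} {v : Pol k n}
    (h : v ∈ Ideal.span (l '' {j | j < d})) : ∃ w : Fin d → Pol k n, v = ∑ j : Fin d, l j * w j := by
  classical
  induction h using Submodule.span_induction with
  | mem x hx =>
    obtain ⟨j, hj, rfl⟩ := hx
    have hj' : j < d := hj
    refine ⟨fun i : Fin d => if i = (⟨j, hj'⟩ : Fin d) then 1 else 0, ?_⟩
    simp
  | zero => exact ⟨fun _ => 0, by simp⟩
  | add x y _ _ hx hy =>
    obtain ⟨w, hw⟩ := hx
    obtain ⟨w', hw'⟩ := hy
    refine ⟨fun i => w i + w' i, ?_⟩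
    rw [hw, hw', ← Finset.sum_add_distrib]
    exact Finset.sum_congr rfl fun i _ => by ring
  | smul a x _ hx =>
    obtain ⟨w, hw⟩ := hx
    refine ⟨fun i => a * w i, ?_⟩
    rw [hw, smul_eq_mul, Finset.mul_sum]
    exact Finset.sum_congr rfl fun i _ => by ring

end FN2_

open FN2_ in
theorem fn2_proof : Stmt_FN2.{u} := by
  intro k _ n I d l hI hl ⟨N, hN⟩
  let _ : Algebra (Pol k d) (Pol k n ⧸ I) :=
    (MvPolynomial.aeval (R := k) (fun i : Fin d => Ideal.Quotient.mk I (l i))).toRingHom.toAlgebra
  change Module.Finite (Pol k d) (Pol k n ⧸ I)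
  have hsm : ∀ (a : Pol k d) (x : Pol k n ⧸ I),
      a • x = MvPolynomial.aeval (R := k) (fun i : Fin d => Ideal.Quotient.mk I (l i)) a * x :=
    fun a x => rfl
  set M : Submodule (Pol k d) (Pol k n ⧸ I) := Submodule.span (Pol k d)
    ((fun s : Fin n →₀ ℕ => Ideal.Quotient.mk I (monomial s 1)) '' {s | s.degree ≤ N}) with hM
  have hMfg : M.FG := by
    apply Submodule.fg_span
    exact (Finsupp.finite_of_degree_le N).image _
  have key : ∀ D : ℕ, ∀ w : Pol k n, w.IsHomogeneous D → Ideal.Quotient.mk I w ∈ M := by
    intro D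
    induction D using Nat.strong_induction_on with
    | _ D ih =>
      intro w hw
      by_cases hD : D ≤ N
      · rw [w.as_sum, map_sum]
        apply Submodule.sum_mem
        intro s hs
        have hs1 : s.degree = D := by
          exact deg_eq hw hs
        have h1 : Ideal.Quotient.mk I (monomial s (coeff s w)) =
            (C (coeff s w) : Pol k d) • Ideal.Quotient.mk I (monomial s 1) := by
          rw [hsm, aeval_C]
          have : (monomial s (coeff s w) : Pol k n) = C (coeff s w) * monomial s 1 := by
            rw [C_mul_monomial, mul_one]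
          rw [this, map_mul]
          rfl
        rw [h1]
        exact Submodule.smul_mem _ _ (Submodule.subset_span ⟨s, by simpa [hs1] using hD, rfl⟩)
      · push Not at hD
        have hwm : w ∈ (Ideal.span (Set.range (X : Fin n → Pol k n))) ^ N := by
          rw [w.as_sum]
          apply Ideal.sum_mem
          intro s hs
          have hs1 : s.degree = D := by
            exact deg_eq hw hs
          exact mem_pow s _ N (by omega)
        obtain ⟨u, hu, v, hv, huv⟩ := Submodule.mem_sup.1 (hN hwm)
        obtain ⟨v', rfl⟩ := mem_span_lin hv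
        obtain ⟨E, rfl⟩ : ∃ E, D = E + 1 := ⟨D - 1, by omega⟩
        have h1 : w = homogeneousComponent (E + 1) u +
            ∑ j : Fin d, l j * homogeneousComponent E (v' j) := by
          have h2 := homogeneousComponent_eq_self hw
          conv_lhs => rw [← h2, ← huv, map_add, map_sum]
          congr 1
          exact Finset.sum_congr rfl fun j _ => comp_mul _ _ (hl j) E
        have h3 : Ideal.Quotient.mk I w =
            ∑ j : Fin d, (X j : Pol k d) • Ideal.Quotient.mk I (homogeneousComponent E (v' j)) := by
          conv_lhs => rw [h1, map_add, Ideal.Quotient.eq_zero_iff_mem.2 (hI u hu (E + 1)),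
            zero_add, map_sum]
          refine Finset.sum_congr rfl fun j _ => ?_
          rw [hsm, aeval_X, map_mul]
        rw [h3]
        apply Submodule.sum_mem
        intro j _
        exact Submodule.smul_mem _ _ (ih E (by omega) _ (homogeneousComponent_isHomogeneous _ _))
  refine ⟨?_⟩
  have : M = ⊤ := by
    rw [eq_top_iff]
    intro x _
    obtain ⟨w, rfl⟩ := Ideal.Quotient.mk_surjective x
    rw [← sum_homogeneousComponent w, map_sum]
    exact Submodule.sum_mem _ fun i _ => key i _ (homogeneousComponent_isHomogeneous _ _)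
  rw [← this]
  exact hMfg

end Pool.Agent.DBX.CMD
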