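import Pool.Agent.DBX.CMD.Stmts

set_option autoImplicit false

namespace Pool.Agent.DBX.CMD

open MvPolynomial Pool.Agent.DBX

universe u v

namespace HCP_

variable {k : Type u} [Field k] {n : ℕ}

/-- a decomposition in homogeneous fractions -/
def Dec (z : Fr k n) (T : Finset ℤ) (y : ℤ → Fr k n) : Prop :=
  (∀ m, y m ∈ HF k n m) ∧ (∀ m, m ∉ T → y m = 0) ∧ z = ∑ m ∈ T, y m

lemma Dec.mono {z : Fr k n} {T T' : Finset ℤ} {y : ℤ → Fr k n} (h : Dec z T y) (hT : T ⊆ T') :
    Dec z T' y := by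
  refine ⟨h.1, fun m hm => h.2.1 m (fun h' => hm (hT h')), ?_⟩
  rw [h.2.2]
  exact Finset.sum_subset hT fun m _ hm => h.2.1 m hm

lemma Dec.uniq (hHFI : ALG.Stmt_HFI.{u}) {z : Fr k n} {T T' : Finset ℤ} {y y' : ℤ → Fr k n}
    (h : Dec z T y) (h' : Dec z T' y') : y = y' := by
  classical
  have h1 := h.mono (Finset.subset_union_left (s₂ := T'))
  have h2 := h'.mono (Finset.subset_union_right (s₁ := T))
  have h3 : ∑ m ∈ T ∪ T', (y m - y' m) = 0 := by
    rw [Finset.sum_sub_distrib, ← h1.2.2, ← h2.2.2, sub_self]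
  have h4 := hHFI k n (T ∪ T') (fun m => y m - y' m)
    (fun m => Submodule.sub_mem _ (h.1 m) (h'.1 m)) h3
  funext m
  by_cases hm : m ∈ T ∪ T'
  · exact sub_eq_zero.1 (h4 m hm)
  · rw [h1.2.1 m hm, h2.2.1 m hm]

lemma Dec.add {z z' : Fr k n} {T T' : Finset ℤ} {y y' : ℤ → Fr k n}
    (h : Dec z T y) (h' : Dec z' T' y') : Dec (z + z') (T ∪ T') (fun m => y m + y' m) := by
  classical
  have h1 := h.mono (Finset.subset_union_left (s₂ := T'))
  have h2 := h'.mono (Finset.subset_union_right (s₁ := T))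
  refine ⟨fun m => Submodule.add_mem _ (h.1 m) (h'.1 m), fun m hm => ?_, ?_⟩
  · show y m + y' m = 0
    rw [h1.2.1 m hm, h2.2.1 m hm, add_zero]
  · rw [Finset.sum_add_distrib, ← h1.2.2, ← h2.2.2]

lemma Dec.smul {z : Fr k n} {T : Finset ℤ} {y : ℤ → Fr k n} (c : k)
    (h : Dec z T y) : Dec (c • z) T (fun m => c • y m) := by
  refine ⟨fun m => Submodule.smul_mem _ _ (h.1 m), fun m hm => ?_, ?_⟩
  · show c • y m = 0
    rw [h.2.1 m hm, smul_zero]
  · rw [← Finset.smul_sum, ← h.2.2]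

lemma Dec.single {m : ℤ} {z : Fr k n} (hz : z ∈ HF k n m) :
    Dec z {m} (fun m' => if m' = m then z else 0) := by
  refine ⟨fun m' => ?_, fun m' hm' => ?_, ?_⟩
  · show (if m' = m then z else 0) ∈ _
    by_cases h : m' = m
    · rw [if_pos h, h]; exact hz
    · rw [if_neg h]; exact Submodule.zero_mem _
  · show (if m' = m then z else 0) = 0
    rw [if_neg (by simpa using hm')]
  · rw [Finset.sum_singleton, if_pos rfl]

lemma HF_mul {m : ℤ} {d : ℕ} {w : Pol k n} (hw : w.IsHomogeneous d) {z : Fr k n}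
    (hz : z ∈ HF k n m) : inc k n w * z ∈ HF k n (m + d) := by
  obtain ⟨a, b, i, j, ha, hb, hb0, hm, rfl⟩ := hz
  refine ⟨w * a, b, d + i, j, hw.mul ha, hb, hb0, ?_, ?_⟩
  · intro h
    have h1 : a ≠ 0 := fun h0 => h (by rw [h0, mul_zero])
    have := hm h1
    push_cast
    omega
  · rw [map_mul, mul_div_assoc]

lemma Dec.mul {z : Fr k n} {T : Finset ℤ} {y : ℤ → Fr k n} {d : ℕ} {w : Pol k n}
    (hw : w.IsHomogeneous d) (h : Dec z T y) :
    Dec (inc k n w * z) (T.map (addRightEmbedding (d : ℤ))) (fun m => inc k n w * y (m - d)) := by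
  refine ⟨fun m => ?_, fun m hm => ?_, ?_⟩
  · have := HF_mul hw (h.1 (m - d))
    rwa [sub_add_cancel] at this
  · have h1 : m - d ∉ T := by
      intro h'
      apply hm
      rw [Finset.mem_map]
      exact ⟨m - d, h', by simp⟩
    show inc k n w * y (m - d) = 0
    rw [h.2.1 _ h1, mul_zero]
  · rw [Finset.sum_map, h.2.2, Finset.mul_sum]
    refine Finset.sum_congr rfl fun m _ => ?_
    simp

/-- existence -/
lemma exists_dec (J : Ideal (Pol k n)) (hJ : HomIdeal J) (σ : Finset (Fin n)) (z : Fr k n)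
    (hz : z ∈ LJ (X : Fin n → Pol k n) J σ) :
    ∃ (T : Finset ℤ) (y : ℤ → Fr k n), Dec z T y ∧
      ∀ m, y m ∈ LJ (X : Fin n → Pol k n) J σ := by
  classical
  obtain ⟨N, w, hw, h⟩ := hz
  set P : Pol k n := (∏ a ∈ σ, X a) ^ N with hP
  have hP0 : P ≠ 0 := pow_ne_zero _ (Finset.prod_ne_zero_iff.2 fun a _ => X_ne_zero a)
  have hPh : P.IsHomogeneous (σ.card * N) := by
    have h1 : (∏ a ∈ σ, (X a : Pol k n)).IsHomogeneous (∑ _a ∈ σ, 1) :=
      IsHomogeneous.prod σ _ _ fun a _ => isHomogeneous_X k a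
    rw [Finset.sum_const, smul_eq_mul, mul_one] at h1
    exact h1.pow N
  have hi : inc k n P ≠ 0 := inc_ne hP0
  have hz : z = inc k n w / inc k n P := by
    rw [eq_div_iff hi, mul_comm]
    exact h
  set s : ℤ := ((σ.card * N : ℕ) : ℤ) with hs
  refine ⟨(Finset.range (w.totalDegree + 1)).map
    (⟨fun j : ℕ => (j : ℤ) - s, fun a b hab => by simpa using hab⟩ : ℕ ↪ ℤ),
    fun m => if 0 ≤ m + s then inc k n (homogeneousComponent (m + s).toNat w) / inc k n P else 0,
    ⟨fun m => ?_, fun m hm => ?_, ?_⟩, fun m => ?_⟩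
  · show (if 0 ≤ m + s then inc k n (homogeneousComponent (m + s).toNat w) / inc k n P else 0) ∈ _
    split_ifs with h0
    · refine ⟨_, P, (m + s).toNat, σ.card * N, homogeneousComponent_isHomogeneous _ _, hPh, hP0,
        fun _ => ?_, rfl⟩
      rw [Int.toNat_of_nonneg h0]
      omega
    · exact Submodule.zero_mem _
  · show (if 0 ≤ m + s then inc k n (homogeneousComponent (m + s).toNat w) / inc k n P else 0) = 0
    split_ifs with h0
    · have h1 : w.totalDegree < (m + s).toNat := by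
        by_contra hc
        push Not at hc
        apply hm
        rw [Finset.mem_map]
        refine ⟨(m + s).toNat, Finset.mem_range.2 (by omega), ?_⟩
        show (((m + s).toNat : ℕ) : ℤ) - s = m
        rw [Int.toNat_of_nonneg h0]
        omega
      rw [homogeneousComponent_eq_zero _ _ h1, map_zero, zero_div]
    · rfl
  · rw [Finset.sum_map, hz]
    have h1 : ∀ j ∈ Finset.range (w.totalDegree + 1),
        (fun m : ℤ => if 0 ≤ m + s then
          inc k n (homogeneousComponent (m + s).toNat w) / inc k n P else 0)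
          ((⟨fun j : ℕ => (j : ℤ) - s, fun a b hab => by simpa using hab⟩ : ℕ ↪ ℤ) j) =
        inc k n (homogeneousComponent j w) / inc k n P := by
      intro j _
      show (if 0 ≤ ((j : ℤ) - s) + s then
        inc k n (homogeneousComponent (((j : ℤ) - s) + s).toNat w) / inc k n P else 0) = _
      rw [sub_add_cancel, if_pos (Int.natCast_nonneg j), Int.toNat_natCast]
    rw [Finset.sum_congr rfl h1, ← Finset.sum_div, ← map_sum]
    congr 2
    exact (sum_homogeneousComponent w).symm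
  · show (if 0 ≤ m + s then inc k n (homogeneousComponent (m + s).toNat w) / inc k n P else 0) ∈ _
    split_ifs with h0
    · refine ⟨N, homogeneousComponent (m + s).toNat w, hJ w hw _, ?_⟩
      show inc k n P * (inc k n _ / inc k n P) = inc k n _
      field_simp
    · exact Submodule.zero_mem _

lemma mono_top {σ τ : Finset (Fin n)} (h : σ ⊆ τ) (J : Ideal (Pol k n)) {z : Fr k n}
    (hz : z ∈ LJ (X : Fin n → Pol k n) J σ) : z ∈ LJ (X : Fin n → Pol k n) ⊤ τ := by
  obtain ⟨N, w, _, h1⟩ := hz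
  refine ⟨N, (∏ a ∈ τ \ σ, X a) ^ N * w, trivial, ?_⟩
  rw [← Finset.prod_sdiff h, mul_pow, map_mul, map_mul, ← h1]
  ring

end HCP_

open HCP_ in
theorem hcp_proof (hHFI : ALG.Stmt_HFI.{u}) : Stmt_HCP.{u} := by
  classical
  intro k _ n
  set L : Submodule k (Fr k n) :=
    (LJ (X : Fin n → Pol k n) ⊤ Finset.univ).restrictScalars k with hL
  have htop : HomIdeal (⊤ : Ideal (Pol k n)) := fun _ _ _ => trivial
  have hex : ∀ z : L, ∃ (T : Finset ℤ) (y : ℤ → Fr k n), Dec (z : Fr k n) T y := by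
    intro z
    obtain ⟨T, y, h, -⟩ := exists_dec ⊤ htop Finset.univ (z : Fr k n) z.2
    exact ⟨T, y, h⟩
  choose T c hc using hex
  have hadd : ∀ z z' : L, c (z + z') = fun m => c z m + c z' m := fun z z' =>
    (hc (z + z')).uniq hHFI ((hc z).add (hc z'))
  have hsmul : ∀ (a : k) (z : L), c (a • z) = fun m => a • c z m := fun a z =>
    (hc (a • z)).uniq hHFI ((hc z).smul a)
  have hext : ∀ m : ℤ, ∃ g : Fr k n →ₗ[k] Fr k n, ∀ z : L, g (z : Fr k n) = c z m := by
    intro m
    let f : L →ₗ[k] Fr k n :=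
      { toFun := fun z => c z m
        map_add' := fun z z' => by rw [hadd]
        map_smul' := fun a z => by rw [hsmul]; rfl }
    obtain ⟨g, hg⟩ := LinearMap.exists_extend f
    exact ⟨g, fun z => congrArg (fun h => h z) hg⟩
  choose π hπ using hext
  have key : ∀ (z : Fr k n) (T' : Finset ℤ) (y : ℤ → Fr k n),
      z ∈ LJ (X : Fin n → Pol k n) ⊤ Finset.univ → Dec z T' y → ∀ m, π m z = y m := by
    intro z T' y hz hd m
    have h1 := hπ m ⟨z, hz⟩
    have h2 := (hc ⟨z, hz⟩).uniq hHFI hd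
    rw [h2] at h1
    exact h1
  refine ⟨π, ?_, ?_, ?_⟩
  · intro m σ J hJ z hz
    obtain ⟨T', y, h1, h2⟩ := exists_dec J hJ σ z hz
    rw [key z T' y (mono_top (Finset.subset_univ σ) J hz) h1 m]
    exact ⟨h2 m, h1.1 m⟩
  · intro m σ z hz hm
    have h1 := key z _ _ (mono_top (Finset.subset_univ σ) ⊤ hz) (Dec.single hm)
    refine ⟨?_, fun m' hm' => ?_⟩
    · rw [h1 m, if_pos rfl]
    · rw [h1 m', if_neg hm']
  · intro m σ z hz d w hw
    obtain ⟨T', y, h1, -⟩ := exists_dec ⊤ htop σ z hz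
    have hz' := mono_top (Finset.subset_univ σ) ⊤ hz
    have hwz : inc k n w * z ∈ LJ (X : Fin n → Pol k n) ⊤ Finset.univ := by
      have := Submodule.smul_mem _ w hz'
      rwa [Algebra.smul_def] at this
    rw [key z T' y hz' h1 m, key _ _ _ hwz (h1.mul hw) (m + d)]
    show inc k n w * y (m + d - d) = _
    rw [add_sub_cancel_right]

end Pool.Agent.DBX.CMD
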