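import Pool.Agent.DBX.CMD.Stmts

set_option autoImplicit false

namespace Pool.Agent.DBX.CMD

open MvPolynomial Pool.Agent.DBX

universe u v

namespace IRR_

variable {k : Type u} [Field k] {n : ℕ}

theorem mem_iff (w : Pol k n) :
    w ∈ Ideal.span (Set.range (X : Fin n → Pol k n)) ↔ coeff 0 w = 0 := by
  rw [← Set.image_univ, mem_ideal_span_X_image]
  constructor
  · intro h
    by_contra h0
    obtain ⟨i, _, hi⟩ := h 0 (mem_support_iff.2 h0)
    exact hi rfl
  · intro h s hs
    have hs0 : s ≠ 0 := by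
      rintro rfl
      exact (mem_support_iff.1 hs) h
    obtain ⟨i, hi⟩ := Finsupp.ne_iff.1 hs0
    exact ⟨i, Set.mem_univ i, hi⟩

theorem span_eq_ker : Ideal.span (Set.range (X : Fin n → Pol k n)) =
    RingHom.ker (constantCoeff : Pol k n →+* k) := by
  ext w
  rw [mem_iff, RingHom.mem_ker, constantCoeff_eq]

theorem isMax : (Ideal.span (Set.range (X : Fin n → Pol k n))).IsMaximal := by
  rw [span_eq_ker]
  refine RingHom.ker_isMaximal_of_surjective _ ?_
  intro c
  exact ⟨C c, constantCoeff_C _ c⟩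

theorem le_irr (I : Ideal (Pol k n)) (hI : HomIdeal I) (hI1 : I ≠ ⊤) :
    I ≤ Ideal.span (Set.range (X : Fin n → Pol k n)) := by
  intro w hw
  rw [mem_iff]
  by_contra h0
  apply hI1
  have h1 := hI w hw 0
  rw [homogeneousComponent_zero] at h1
  have h2 : IsUnit (C (coeff 0 w) : Pol k n) := (isUnit_iff_ne_zero.2 h0).map C
  exact Ideal.eq_top_of_isUnit_mem _ h1 h2

end IRR_

open IRR_ in
theorem irr_proof : Stmt_IRR.{u} := by
  intro k _ n I hI hI1
  have hle := le_irr I hI hI1
  have hmax := isMax (k := k) (n := n)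
  have e1 : Ideal.span (Set.range (fun i => Ideal.Quotient.mk I (X i))) =
      (Ideal.span (Set.range (X : Fin n → Pol k n))).map (Ideal.Quotient.mk I) := by
    rw [Ideal.map_span, ← Set.range_comp]
    rfl
  have hcomap : (Ideal.span (Set.range (fun i => Ideal.Quotient.mk I (X i)))).comap
      (Ideal.Quotient.mk I) = Ideal.span (Set.range (X : Fin n → Pol k n)) := by
    rw [e1, Ideal.comap_map_of_surjective' _ Ideal.Quotient.mk_surjective, Ideal.mk_ker]
    exact sup_eq_left.2 hle
  refine ⟨hle, hmax, ?_, hcomap, mem_iff⟩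
  rw [e1]
  haveI := hmax.isPrime
  refine Ideal.map_isPrime_of_surjective Ideal.Quotient.mk_surjective ?_
  rw [Ideal.mk_ker]
  exact hle

end Pool.Agent.DBX.CMD
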