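import Pool.Agent.DBX.CMD.Stmts

set_option autoImplicit false

/-! # MP_2c751f_ag, squad DBX, area CMD: module LCD, vanishing of the local cohomology of `S/I`
below the depth -/

namespace Pool.Agent.DBX.CMD

open MvPolynomial Pool.Agent.DBX

noncomputable section

universe u v

namespace LCD_

variable {k : Type u} [Field k] {n : ℕ}

theorem LJ_mono {J J' : Ideal (Pol k n)} (h : J ≤ J') {σ : Finset (Fin n)} {z : Fr k n}
    (hz : z ∈ LJ (X : Fin n → Pol k n) J σ) : z ∈ LJ (X : Fin n → Pol k n) J' σ := by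
  obtain ⟨N, w, hw, h1⟩ := hz
  exact ⟨N, w, h hw, h1⟩

theorem HomIdeal_top : HomIdeal (⊤ : Ideal (Pol k n)) := fun _ _ _ => trivial

theorem inc_mul_mem {J : Ideal (Pol k n)} {σ : Finset (Fin n)} {z : Fr k n}
    (hz : z ∈ LJ (X : Fin n → Pol k n) J σ) (s : Pol k n) :
    inc k n s * z ∈ LJ (X : Fin n → Pol k n) J σ := by
  have h1 := Submodule.smul_mem _ s hz
  rw [Algebra.smul_def] at h1
  exact h1

theorem k_smul_mem {J : Ideal (Pol k n)} {σ : Finset (Fin n)} {z : Fr k n}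
    (hz : z ∈ LJ (X : Fin n → Pol k n) J σ) (c : k) :
    c • z ∈ LJ (X : Fin n → Pol k n) J σ := by
  have h1 := Submodule.smul_mem _ (C c) hz
  have h2 : (C c : Pol k n) • z = c • z := by
    rw [Algebra.smul_def, Algebra.smul_def, IsScalarTower.algebraMap_apply k (Pol k n) (Fr k n)]
    rfl
  rwa [h2] at h1

/-- `π m` of a multiple of a homogeneous element -/
theorem pi_mul (π : ℤ → (Fr k n →ₗ[k] Fr k n))
    (h2 : ∀ (m : ℤ) (σ : Finset (Fin n)), ∀ z ∈ LJ (X : Fin n → Pol k n) ⊤ σ, z ∈ HF k n m →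
      π m z = z ∧ ∀ m', m' ≠ m → π m' z = 0)
    (h3 : ∀ (m : ℤ) (σ : Finset (Fin n)), ∀ z ∈ LJ (X : Fin n → Pol k n) ⊤ σ, ∀ (d : ℕ)
      (w : Pol k n), w.IsHomogeneous d → π (m + d) (inc k n w * z) = inc k n w * π m z)
    (m : ℤ) (σ : Finset (Fin n)) (z : Fr k n) (hz : z ∈ LJ (X : Fin n → Pol k n) ⊤ σ)
    (hz2 : z ∈ HF k n m) (s : Pol k n) :
    π m (inc k n s * z) = (coeff 0 s) • z := by
  conv_lhs => rw [← sum_homogeneousComponent s]
  rw [map_sum, Finset.sum_mul, map_sum]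
  rw [Finset.sum_eq_single_of_mem 0 (Finset.mem_range.mpr (Nat.succ_pos _))]
  · have h4 := h3 m σ z hz 0 (homogeneousComponent 0 s) (homogeneousComponent_isHomogeneous 0 s)
    rw [Nat.cast_zero, add_zero] at h4
    rw [h4, (h2 m σ z hz hz2).1, homogeneousComponent_zero, Algebra.smul_def,
      IsScalarTower.algebraMap_apply k (Pol k n) (Fr k n)]
    rfl
  · intro e _ he
    have h4 := h3 (m - e) σ z hz e (homogeneousComponent e s)
      (homogeneousComponent_isHomogeneous e s)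
    rw [sub_add_cancel] at h4
    rw [h4, (h2 m σ z hz hz2).2 (m - e) (by omega), mul_zero]

end LCD_

open LCD_

theorem lcd_proof (hLJX : Stmt_LJX.{u}) (hRSQ : Stmt_RSQ.{u, u}) (hHCP : Stmt_HCP.{u})
    (hDMM : Stmt_DMM.{u}) (hCHN : Stmt_CHN.{u}) (hIRR : Stmt_IRR.{u}) : Stmt_LCD.{u} := by
  intro k _ _ n I r d hI hI1 hS hd m j hj
  obtain ⟨i1, i2, i3, i4, i5⟩ := hIRR k n I hI hI1
  obtain ⟨rs, r1, r2, r3⟩ :=
    hS (Ideal.span (Set.range (fun i => Ideal.Quotient.mk I (X i))))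
  have hdim := hDMM k n I d hI hI1 hd _ rfl
  have hlen : j < rs.length := by
    have h1 : ((min r d : ℕ) : WithBot ℕ∞) ≤ (rs.length : WithBot ℕ∞) := by
      rw [r3]
      refine le_min ?_ (le_trans ?_ hdim)
      · exact_mod_cast min_le_left r d
      · exact_mod_cast min_le_right r d
    have h2 : min r d ≤ rs.length := by exact_mod_cast h1
    omega
  obtain ⟨J, a, c1, c2, c3, c4, c5, c6, c7⟩ := hCHN (Pol k n) I _ rs r1 r2.toIsWeaklyRegular
  rw [i4] at c1 c5 c7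
  have i2' := i2
  obtain ⟨π, p1, p2, p3⟩ := hHCP k n
  intro x hx hx0 hcx
  have hxL : ∀ σ, x σ ∈ LJ (X : Fin n → Pol k n) ⊤ σ := fun σ => ((hLJX k n σ).1 _).1 (hx σ).1
  have hcxL : ∀ σ, cd x σ ∈ LJ (X : Fin n → Pol k n) I σ :=
    fun σ => ((hLJX k n σ).2 I _).1 (hcx σ)
  have hmp : (Ideal.span (Set.range (X : Fin n → Pol k n))).IsPrime := i2.isPrime
  obtain ⟨s, hs, y, y1, y2, y3⟩ := hRSQ (Pol k n) (Fr k n) n X (fun i => X_ne_zero i)
    (Ideal.span (Set.range (X : Fin n → Pol k n))).primeCompl rs.length J a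
    (fun i hi => Ideal.le_radical (c1 i hi)) c2 c3 c4
    (fun i hi w hw => by
      obtain ⟨s, hs, v, hv⟩ := c5 i hi w hw
      exact ⟨s, hs, v, hv⟩)
    j hlen x hxL hx0 (fun σ => LJ_mono c6 (hcxL σ))
  -- multiply by elements outside m
  have h1 : ∀ σ, ∃ s' : Pol k n, s' ∉ Ideal.span (Set.range (X : Fin n → Pol k n)) ∧
      inc k n s' * (algebraMap (Pol k n) (Fr k n) s * x σ - cd y σ) ∈
        LJ (X : Fin n → Pol k n) I σ := by
    intro σ
    obtain ⟨N, w, hw, hw2⟩ := y3 σ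
    obtain ⟨s', hs', hs2⟩ := c7 w hw
    refine ⟨s', hs', N, s' * w, hs2, ?_⟩
    rw [map_mul, ← hw2]
    ring
  choose s' hs' hs2 using h1
  have hprod : ∏ σ : Finset (Fin n), s' σ ∉ Ideal.span (Set.range (X : Fin n → Pol k n)) := by
    intro h
    rw [hmp.prod_mem_iff] at h
    obtain ⟨σ, _, hσ⟩ := h
    exact hs' σ hσ
  have h2 : ∀ σ, inc k n (∏ σ : Finset (Fin n), s' σ) *
      (algebraMap (Pol k n) (Fr k n) s * x σ - cd y σ) ∈ LJ (X : Fin n → Pol k n) I σ := by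
    intro σ
    rw [← Finset.mul_prod_erase Finset.univ s' (Finset.mem_univ σ), map_mul, mul_comm (inc k n _),
      mul_assoc]
    exact inc_mul_mem (hs2 σ) _
  have h3 : (∏ σ : Finset (Fin n), s' σ) * s ∉
      Ideal.span (Set.range (X : Fin n → Pol k n)) := by
    intro h
    rcases hmp.mem_or_mem h with h | h
    · exact hprod h
    · exact hs h
  rw [i5] at h3
  obtain ⟨c, hc⟩ : ∃ c, c = coeff 0 ((∏ σ : Finset (Fin n), s' σ) * s) := ⟨_, rfl⟩
  rw [← hc] at h3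
  -- the homogeneous component of degree m
  have h4 : ∀ σ, c • x σ - cd (fun σ => π m (inc k n (∏ σ : Finset (Fin n), s' σ) * y σ)) σ ∈
      LJ (X : Fin n → Pol k n) I σ := by
    intro σ
    have h5 := (p1 m σ I hI _ (h2 σ)).1
    rw [mul_sub, ← mul_assoc, map_sub, ← map_mul, pi_mul π p2 p3 m σ (x σ) (hxL σ) (hx σ).2,
      ← hc] at h5
    have h6 : π m (inc k n (∏ σ : Finset (Fin n), s' σ) * cd y σ) =
        cd (fun σ => π m (inc k n (∏ σ : Finset (Fin n), s' σ) * y σ)) σ := by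
      unfold cd
      rw [Finset.mul_sum, map_sum]
      refine Finset.sum_congr rfl (fun v _ => ?_)
      rw [mul_smul_comm, map_zsmul]
    rwa [h6] at h5
  have h7 : ∀ σ, inc k n (∏ σ : Finset (Fin n), s' σ) * y σ ∈ LJ (X : Fin n → Pol k n) ⊤ σ :=
    fun σ => inc_mul_mem (y1 σ) _
  refine ⟨fun σ => c⁻¹ • π m (inc k n (∏ σ : Finset (Fin n), s' σ) * y σ), ?_, ?_, ?_⟩
  · intro σ
    have h8 := p1 m σ ⊤ HomIdeal_top _ (h7 σ)
    exact ⟨((hLJX k n σ).1 _).2 (k_smul_mem h8.1 _), Submodule.smul_mem _ _ h8.2⟩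
  · intro σ hσ
    simp only [y2 σ hσ, mul_zero, map_zero, smul_zero]
  · intro σ
    rw [(hLJX k n σ).2 I]
    have h9 := k_smul_mem (h4 σ) c⁻¹
    rw [smul_sub, inv_smul_smul₀ h3] at h9
    convert h9 using 2
    unfold cd
    rw [Finset.smul_sum]
    refine Finset.sum_congr rfl (fun v _ => ?_)
    rw [smul_comm]

end

end Pool.Agent.DBX.CMD
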