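import Pool.Agent.DBX.CMD.Stmts

set_option autoImplicit false

namespace Pool.Agent.DBX.CMD

open MvPolynomial Pool.Agent.DBX

universe u v

namespace PAV_

variable {k : Type u} [Field k] {n : ℕ}

lemma hc_X_mul (i : Fin n) (d : ℕ) (w : Pol k n) :
    homogeneousComponent (d + 1) (X i * w) = X i * homogeneousComponent d w := by
  ext m
  rw [coeff_homogeneousComponent, coeff_X_mul', coeff_X_mul', coeff_homogeneousComponent]
  by_cases h : i ∈ m.support
  · have hm : m = (m - Finsupp.single i 1) + Finsupp.single i 1 := by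
      refine (tsub_add_cancel_of_le ?_).symm
      rw [Finsupp.single_le_iff]
      exact Nat.one_le_iff_ne_zero.2 (Finsupp.mem_support_iff.1 h)
    have hdeg : m.degree = (m - Finsupp.single i 1).degree + 1 := by
      conv_lhs => rw [hm]
      rw [map_add, Finsupp.degree_single]
    rw [if_pos h, if_pos h, hdeg]
    by_cases h2 : (m - Finsupp.single i 1).degree = d
    · rw [if_pos h2, if_pos (by rw [h2])]
    · rw [if_neg h2, if_neg (by omega)]
  · rw [if_neg h, if_neg h, ite_self]

lemma mem_of_X_mul (hLJX : Stmt_LJX.{u}) (J : Ideal (Pol k n)) (hJ : HomIdeal J)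
    (h0 : ∀ m : ℤ, LCZero J 0 m) (w : Pol k n) (hw : ∀ i, X i * w ∈ J) : w ∈ J := by
  rw [← sum_homogeneousComponent w]
  refine Ideal.sum_mem _ fun d _ => ?_
  have hX : ∀ i, X i * homogeneousComponent d w ∈ J := by
    intro i
    rw [← hc_X_mul]
    exact hJ _ (hw i) _
  set wd := homogeneousComponent d w with hwd
  have hA : ∀ σ : Finset (Fin n), (if σ = ∅ then inc k n wd else 0) ∈ Sl k n σ ∧
      (if σ = ∅ then inc k n wd else 0) ∈ HF k n (d : ℤ) := by
    intro σ
    by_cases hσ : σ = ∅
    · subst hσ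
      simp only [if_true]
      refine ⟨Algebra.subset_adjoin (Or.inl ⟨wd, rfl⟩), wd, 1, d, 0,
        homogeneousComponent_isHomogeneous d w, isHomogeneous_one _ _, one_ne_zero, ?_, ?_⟩
      · intro _; simp
      · rw [map_one, div_one]
    · simp only [if_neg hσ]
      exact ⟨Subalgebra.zero_mem _, Submodule.zero_mem _⟩
  have hB : ∀ σ : Finset (Fin n), σ.card ≠ 0 → (if σ = ∅ then inc k n wd else 0) = 0 := by
    intro σ hσ
    have : σ ≠ ∅ := by
      rintro rfl; exact hσ rfl
    simp [this]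
  have hC : ∀ σ : Finset (Fin n), cd (fun σ : Finset (Fin n) => if σ = ∅ then inc k n wd else 0) σ
      ∈ toF (Sl k n σ) (genIn (Sl k n σ) (inc k n '' J)) := by
    intro σ
    rw [(hLJX k n σ).2 J]
    unfold cd
    refine Submodule.sum_mem _ fun v hv => ?_
    refine zsmul_mem ?_ _
    show (if σ.erase v = ∅ then inc k n wd else 0) ∈ _
    by_cases h : σ.erase v = ∅
    · rw [if_pos h]
      refine ⟨1, (∏ a ∈ σ.erase v, X a) * (X v * wd), J.mul_mem_left _ (hX v), ?_⟩
      rw [pow_one, ← mul_assoc, mul_comm _ (X v), Finset.mul_prod_erase σ _ hv, map_mul]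
    · rw [if_neg h]; exact Submodule.zero_mem _
  obtain ⟨y, -, hy2, hy3⟩ := h0 (d : ℤ) (fun σ => if σ = ∅ then inc k n wd else 0) hA hB hC
  have h := hy3 ∅
  rw [(hLJX k n ∅).2 J] at h
  have h1 : cd y ∅ = 0 := by simp [cd]
  simp only [if_true, h1, sub_zero] at h
  obtain ⟨N, w', hw', h'⟩ := h
  simp only [Finset.prod_empty, one_pow, map_one, one_mul] at h'
  have h3 : wd = w' := IsFractionRing.injective (MvPolynomial (Fin n) k)
    (FractionRing (MvPolynomial (Fin n) k)) h'
  rw [h3]; exact hw'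

/-- the space of linear forms -/
noncomputable def lam (k : Type u) [Field k] (n : ℕ) : (Fin n → k) →ₗ[k] Pol k n where
  toFun c := ∑ i, C (c i) * X i
  map_add' c c' := by
    rw [← Finset.sum_add_distrib]
    refine Finset.sum_congr rfl fun i _ => ?_
    rw [Pi.add_apply, map_add, add_mul]
  map_smul' a c := by
    rw [RingHom.id_apply, Finset.smul_sum]
    refine Finset.sum_congr rfl fun i _ => ?_
    rw [Pi.smul_apply, smul_eq_mul, map_mul, mul_assoc, smul_eq_C_mul]

lemma lam_hom (c : Fin n → k) : (lam k n c).IsHomogeneous 1 := by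
  refine IsHomogeneous.sum _ _ _ fun i _ => ?_
  have := (isHomogeneous_C (Fin n) (c i)).mul (isHomogeneous_X k i)
  simpa using this

lemma lam_single (i : Fin n) : lam k n (Pi.single i 1) = X i := by
  show ∑ j, C ((Pi.single i (1 : k) : Fin n → k) j) * X j = X i
  rw [Finset.sum_eq_single i]
  · rw [Pi.single_eq_same, map_one, one_mul]
  · intro j _ hj
    rw [Pi.single_eq_of_ne hj, map_zero, zero_mul]
  · intro h; exact absurd (Finset.mem_univ i) h

end PAV_

open PAV_ in
theorem pav_proof (hLJX : Stmt_LJX.{u}) : Stmt_PAV.{u} := by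
  intro k _ _ n J hJ h0
  classical
  have hfin : (associatedPrimes (Pol k n) (Pol k n ⧸ J)).Finite :=
    associatedPrimes.finite _ _
  have hprop : ∀ P ∈ associatedPrimes (Pol k n) (Pol k n ⧸ J),
      (P.restrictScalars k).comap (lam k n) ≠ ⊤ := by
    intro P hP htop
    obtain ⟨hprime, x, hx⟩ := isAssociatedPrime_iff.1 hP
    obtain ⟨w, rfl⟩ := Ideal.Quotient.mk_surjective x
    have hmem : ∀ a : Pol k n, a ∈ P ↔ a * w ∈ J := by
      intro a
      rw [hx, Submodule.mem_colon_singleton, Submodule.mem_bot, ← Ideal.Quotient.eq_zero_iff_mem,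
        map_mul]
      rfl
    have hXP : ∀ i, (X i : Pol k n) ∈ P := by
      intro i
      have : (Pi.single i 1 : Fin n → k) ∈ (P.restrictScalars k).comap (lam k n) := by
        rw [htop]; trivial
      rw [Submodule.mem_comap, lam_single] at this
      exact this
    have hwJ : w ∈ J := mem_of_X_mul hLJX J hJ h0 w fun i => (hmem _).1 (hXP i)
    apply hprime.ne_top
    rw [Ideal.eq_top_iff_one]
    rw [hmem, one_mul]
    exact hwJ
  have hun : ∃ c : Fin n → k, ∀ P ∈ associatedPrimes (Pol k n) (Pol k n ⧸ J), lam k n c ∉ P := by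
    have h1 := Subspace.biUnion_ne_univ_of_top_notMem (k := k) (E := Fin n → k)
      (s := hfin.toFinset.image fun P => (P.restrictScalars k).comap (lam k n)) (by
        intro h
        rw [Finset.mem_image] at h
        obtain ⟨P, hP, hP2⟩ := h
        exact hprop P (hfin.mem_toFinset.1 hP) hP2)
    rw [Set.ne_univ_iff_exists_notMem] at h1
    obtain ⟨c, hc⟩ := h1
    refine ⟨c, fun P hP hcP => hc ?_⟩
    rw [Set.mem_iUnion₂]
    refine ⟨_, Finset.mem_image_of_mem _ (hfin.mem_toFinset.2 hP), ?_⟩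
    exact hcP
  obtain ⟨c, hc⟩ := hun
  refine ⟨lam k n c, lam_hom c, ?_⟩
  have hreg : IsSMulRegular (Pol k n ⧸ J) (lam k n c) := by
    by_contra h
    have h2 : lam k n c ∈ ({r | IsSMulRegular (Pol k n ⧸ J) r}ᶜ : Set (Pol k n)) := h
    rw [← biUnion_associatedPrimes_eq_compl_regular, Set.mem_iUnion₂] at h2
    obtain ⟨P, hP, hP2⟩ := h2
    exact hc P hP hP2
  intro w hw
  rw [← Ideal.Quotient.eq_zero_iff_mem] at hw ⊢
  apply hreg
  show lam k n c • Ideal.Quotient.mk J w = lam k n c • 0
  rw [smul_zero, ← hw, map_mul]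
  rfl

end Pool.Agent.DBX.CMD
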