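import Pool.Agent.DBX.CMD.Stmts

set_option autoImplicit false

namespace Pool.Agent.DBX.CMD

open MvPolynomial Pool.Agent.DBX

universe u v

namespace RLF_

theorem ki_zero {A : Type u} [CommRing A] (I : Ideal A) (l : ℕ → A) : KI I l 0 = I := by
  have h : l '' {j | j < 0} = ∅ := by
    ext x
    simp
  rw [KI, h, Ideal.span_empty, sup_bot_eq]

theorem ki_succ {A : Type u} [CommRing A] (I : Ideal A) (l l' : ℕ → A)
    (h : ∀ i, l (i + 1) = l' i) (i : ℕ) :
    KI I l (i + 1) = KI (I ⊔ Ideal.span {l 0}) l' i := by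
  have h1 : l '' {j | j < i + 1} = {l 0} ∪ l' '' {j | j < i} := by
    ext x
    constructor
    · rintro ⟨j, hj, rfl⟩
      rcases j with _ | j
      · exact Or.inl rfl
      · exact Or.inr ⟨j, Nat.lt_of_succ_lt_succ hj, (h j).symm⟩
    · rintro (hx | ⟨j, hj, rfl⟩)
      · rw [Set.mem_singleton_iff] at hx
        exact ⟨0, Nat.succ_pos i, hx.symm⟩
      · exact ⟨j + 1, Nat.succ_lt_succ hj, h j⟩
  rw [KI, KI, h1, Ideal.span_union, sup_assoc]

end RLF_

theorem rlf_proof (hPAV : Stmt_PAV.{u}) (hDSC : Stmt_DSC.{u}) : Stmt_RLF.{u} := by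
  intro k _ _ n I d
  induction d generalizing I with
  | zero =>
    intro _ _
    exact ⟨fun _ => 0, fun _ => isHomogeneous_zero _ _ _, fun i hi => absurd hi (Nat.not_lt_zero i)⟩
  | succ d ih =>
    intro hI hL
    obtain ⟨l0, h0, hr⟩ := hPAV k n I hI (fun m => hL 0 m (Nat.succ_pos d))
    obtain ⟨h1, h2⟩ := hDSC k n I l0 d hI h0 hr hL
    obtain ⟨l', h3, h4⟩ := ih (I ⊔ Ideal.span {l0}) h1 h2
    refine ⟨fun i => Nat.casesOn i l0 l', ?_, ?_⟩
    · intro i
      rcases i with _ | i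
      · exact h0
      · exact h3 i
    · intro i hi
      rcases i with _ | i
      · rw [RLF_.ki_zero]
        exact hr
      · rw [RLF_.ki_succ I _ l' (fun _ => rfl)]
        exact h4 i (Nat.lt_of_succ_lt_succ hi)

end Pool.Agent.DBX.CMD
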