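import Pool.Agent.DBX.CMD.Stmts

set_option autoImplicit false

namespace Pool.Agent.DBX.CMD

open MvPolynomial Pool.Agent.DBX

universe u v

namespace TOR_

variable {A : Type u} {F : Type v} [CommRing A] [Field F] [Algebra A F] {n : ℕ}

lemma down (x : Fin n → A) (J : Ideal A) (σ : Finset (Fin n)) (v : Fin n) (hv : v ∉ σ) (z : F)
    (hz : z ∈ LJ x J (insert v σ)) : ∃ N : ℕ, ∀ M, N ≤ M → (x v ^ M) • z ∈ LJ x J σ := by
  obtain ⟨N, w, hw, h⟩ := hz
  refine ⟨N, fun M hM => ?_⟩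
  obtain ⟨M', rfl⟩ := Nat.exists_eq_add_of_le hM
  have h1 : (x v ^ N) • z ∈ LJ x J σ := by
    refine ⟨N, w, hw, ?_⟩
    rw [← h, Finset.prod_insert hv, mul_pow, map_mul, Algebra.smul_def]
    ring
  have h2 : (x v ^ (N + M')) • z = (x v ^ M') • ((x v ^ N) • z) := by
    rw [smul_smul, pow_add, mul_comm]
  rw [h2]
  exact Submodule.smul_mem _ _ h1

lemma hv_down (x : Fin n → A) (J : Ideal A) (z : Finset (Fin n) → F)
    (hz : ∀ σ, z σ ∈ LJ x J σ) (v : Fin n) (σ : Finset (Fin n)) :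
    ∃ N : ℕ, ∀ M, N ≤ M → (x v ^ M) • hv v z σ ∈ LJ x J σ := by
  by_cases h : v ∈ σ
  · refine ⟨0, fun M _ => ?_⟩
    have h1 : hv v z σ = 0 := if_pos h
    rw [h1, smul_zero]
    exact Submodule.zero_mem _
  · obtain ⟨N, hN⟩ := down x J σ v h _ (hz (insert v σ))
    refine ⟨N, fun M hM => ?_⟩
    have h1 : hv v z σ = sgn v σ • z (insert v σ) := if_neg h
    rw [h1, smul_comm]
    exact zsmul_mem (hN M hM) _

lemma hv_all (x : Fin n → A) (J : Ideal A) (z : Finset (Fin n) → F)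
    (hz : ∀ σ, z σ ∈ LJ x J σ) :
    ∃ N : ℕ, ∀ M, N ≤ M → ∀ (v : Fin n) (σ : Finset (Fin n)),
      (x v ^ M) • hv v z σ ∈ LJ x J σ := by
  choose N hN using fun p : Fin n × Finset (Fin n) => hv_down x J z hz p.1 p.2
  refine ⟨Finset.univ.sup N, fun M hM v σ => hN (v, σ) M ?_⟩
  exact (Finset.le_sup (f := N) (Finset.mem_univ (v, σ))).trans hM

end TOR_

open TOR_ in
theorem tor_proof : Stmt_TOR.{u, v} := by
  intro A F _ _ _ _ _ n x _ J a ha j z hz hs hc
  obtain ⟨N1, h1⟩ := hv_all x ⊤ z hz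
  obtain ⟨N2, h2⟩ := hv_all x J (cd z) hc
  set N := max N1 N2 with hN
  have hle : Ideal.span (Set.range x) ≤ (Ideal.span (Set.range fun v => x v ^ N)).radical := by
    rw [Ideal.span_le]
    rintro _ ⟨v, rfl⟩
    exact ⟨N, Ideal.subset_span ⟨v, rfl⟩⟩
  have ha' : a ∈ (Ideal.span (Set.range fun v => x v ^ N)).radical := by
    have h3 := Ideal.radical_mono hle ha
    rwa [Ideal.radical_idem] at h3
  obtain ⟨K, hK⟩ := ha'
  obtain ⟨c, hcK⟩ := Ideal.mem_span_range_iff_exists_fun.1 hK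
  refine ⟨K, ∑ v, (c v * x v ^ N) • hv v z, ?_, ?_, ?_⟩
  · intro σ
    rw [Finset.sum_apply]
    refine Submodule.sum_mem _ fun v _ => ?_
    rw [Pi.smul_apply, mul_smul]
    exact Submodule.smul_mem _ _ (h1 N (le_max_left _ _) v σ)
  · intro σ hσ
    rw [Finset.sum_apply]
    refine Finset.sum_eq_zero fun v _ => ?_
    rw [Pi.smul_apply]
    by_cases h : v ∈ σ
    · have h3 : hv v z σ = 0 := if_pos h
      rw [h3, smul_zero]
    · have h3 : hv v z σ = sgn v σ • z (insert v σ) := if_neg h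
      rw [h3, hs _ (by rw [Finset.card_insert_of_notMem h]; exact hσ), smul_zero, smul_zero]
  · intro σ
    have h3 : cd (∑ v, (c v * x v ^ N) • hv v z) =
        ∑ v, (c v * x v ^ N) • (z - hv v (cd z)) := by
      rw [cd_sum]
      refine Finset.sum_congr rfl fun v _ => ?_
      rw [cd_smul]
      congr 1
      have := cd_hv v z
      exact eq_sub_of_add_eq this
    have h4 : algebraMap A F (a ^ K) * z σ -
        cd (∑ v, (c v * x v ^ N) • hv v z) σ = ∑ v, c v • ((x v ^ N) • hv v (cd z) σ) := by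
      rw [h3, Finset.sum_apply, ← hcK, map_sum, Finset.sum_mul, ← Finset.sum_sub_distrib]
      refine Finset.sum_congr rfl fun v _ => ?_
      rw [Pi.smul_apply, Pi.sub_apply, smul_sub, Algebra.smul_def, mul_smul]
      ring
    rw [h4]
    exact Submodule.sum_mem _ fun v _ => Submodule.smul_mem _ _ (h2 N (le_max_right _ _) v σ)

end Pool.Agent.DBX.CMD
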