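import Pool.Agent.DBX.CMD.RSQ
import Pool.Agent.DBX.CMD.CMX
import Pool.Agent.DBX.CMD.DMM
import Pool.Agent.DBX.CMD.HCP
import Pool.Agent.DBX.CMD.LCD
import Pool.Agent.DBX.CMD.DSC
import Pool.Agent.DBX.CMD.TOR
import Pool.Agent.DBX.CMD.FB3
import Pool.Agent.DBX.CMD.FB2
import Pool.Agent.DBX.CMD.PAV
import Pool.Agent.DBX.CMD.CHN
import Pool.Agent.DBX.CMD.FN1
import Pool.Agent.DBX.CMD.FN2
import Pool.Agent.DBX.CMD.CMF
import Pool.Agent.DBX.CMD.LJX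
import Pool.Agent.DBX.CMD.FLT
import Pool.Agent.DBX.CMD.CMI
import Pool.Agent.DBX.CMD.RLF
import Pool.Agent.DBX.CMD.IRR
import Pool.Agent.DBX.CMD.FB1
import Pool.Agent.DBX.CMD.CMV
import Pool.Agent.DBX.CMD.CMQ
import Pool.Agent.DBX.CMD.DEP

set_option autoImplicit false

/-! # MP_2c751f_ag, squad DBX, area CMD: assembly -/

namespace Pool.Agent.DBX.CMD

open MvPolynomial Pool.Agent.DBX

universe u

theorem a_lcd (hHFI : ALG.Stmt_HFI.{u}) : Stmt_LCD.{u} :=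
  lcd_proof ljx_proof.{u} (rsq_proof tor_proof.{u, u}) (hcp_proof hHFI) (dmm_proof irr_proof.{u})
    chn_proof.{u} irr_proof.{u}

theorem a_dep (hHFI : ALG.Stmt_HFI.{u}) (hCMP : ALG.Stmt_CMP.{u}) : Stmt_DEP.{u} :=
  dep_proof (a_lcd hHFI) hCMP

theorem a_rlf (hHFI : ALG.Stmt_HFI.{u}) : Stmt_RLF.{u} :=
  rlf_proof (pav_proof ljx_proof.{u}) (dsc_proof ljx_proof.{u} (hcp_proof hHFI))

theorem a_flt : Stmt_FLT.{u} := flt_proof fb1_proof.{u} fb2_proof.{u} fb3_proof.{u}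

theorem a_cmv : Stmt_CMV.{u} := cmv_proof cmx_proof.{u} cmi_proof.{u}

theorem a_cmq (hHFI : ALG.Stmt_HFI.{u}) (hHCO : ALG.Stmt_HCO.{u}) : Stmt_CMQ.{u} :=
  cmq_proof (a_rlf hHFI) (fn1_proof irr_proof.{u} hHCO) fn2_proof.{u} a_flt a_cmv cmf_proof.{u}

end Pool.Agent.DBX.CMD
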