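import Pool.Agent.DBX.ALG.Stmts
import Pool.Agent.DBX.Lib.Cech

set_option autoImplicit false

/-! # MP_2c751f_ag, squad DBX, area CMD: Stmt_DEP and Stmt_CMQ, statements of the modules -/

namespace Pool.Agent.DBX.CMD

open MvPolynomial Pool.Agent.DBX

noncomputable section

universe u v

/-! ## Depth -/

/-- `J[1/x_σ]` inside the field `F ⊇ A` -/
def LJ {A : Type u} {F : Type v} [CommRing A] [Field F] [Algebra A F] {n : ℕ} (x : Fin n → A)
    (J : Ideal A) (σ : Finset (Fin n)) : Submodule A F where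
  carrier := {z | ∃ (N : ℕ) (w : A), w ∈ J ∧
    algebraMap A F ((∏ a ∈ σ, x a) ^ N) * z = algebraMap A F w}
  zero_mem' := ⟨0, 0, J.zero_mem, by simp⟩
  add_mem' := by
    rintro z z' ⟨N, w, hw, h⟩ ⟨N', w', hw', h'⟩
    refine ⟨N + N', (∏ a ∈ σ, x a) ^ N' * w + (∏ a ∈ σ, x a) ^ N * w',
      J.add_mem (J.mul_mem_left _ hw) (J.mul_mem_left _ hw'), ?_⟩
    rw [map_add, map_mul, map_mul, ← h, ← h', pow_add, map_mul]
    ring
  smul_mem' := by
    rintro c z ⟨N, w, hw, h⟩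
    refine ⟨N, c * w, J.mul_mem_left _ hw, ?_⟩
    rw [map_mul, ← h, Algebra.smul_def]
    ring

/-- comparison of `LJ` with the submodules used in Final.lean -/
def Stmt_LJX : Prop :=
  ∀ (k : Type u) [Field k] (n : ℕ) (σ : Finset (Fin n)),
    (∀ z : Fr k n, z ∈ Sl k n σ ↔ z ∈ LJ (X : Fin n → Pol k n) ⊤ σ) ∧
    ∀ (J : Ideal (Pol k n)) (z : Fr k n),
      z ∈ toF (Sl k n σ) (genIn (Sl k n σ) (inc k n '' J)) ↔ z ∈ LJ (X : Fin n → Pol k n) J σ

/-- powers of elements of the radical of `(x)` kill the cohomology modulo `J` -/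
def Stmt_TOR : Prop :=
  ∀ (A : Type u) (F : Type v) [CommRing A] [IsDomain A] [Field F] [Algebra A F]
    [FaithfulSMul A F] (n : ℕ) (x : Fin n → A), (∀ i, x i ≠ 0) →
    ∀ (J : Ideal A) (a : A), a ∈ (Ideal.span (Set.range x)).radical → ∀ (j : ℕ)
    (z : Finset (Fin n) → F), (∀ σ, z σ ∈ LJ x ⊤ σ) → (∀ σ, σ.card ≠ j → z σ = 0) →
    (∀ σ, cd z σ ∈ LJ x J σ) →
    ∃ (K : ℕ) (y : Finset (Fin n) → F), (∀ σ, y σ ∈ LJ x ⊤ σ) ∧
      (∀ σ, σ.card + 1 ≠ j → y σ = 0) ∧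
      ∀ σ, algebraMap A F (a ^ K) * z σ - cd y σ ∈ LJ x J σ

/-- a regular sequence (up to the multiplicative set `T`) of length `t` in the radical of `(x)`
makes the Čech complex modulo `J` exact in degrees `< t` (up to `T`) -/
def Stmt_RSQ : Prop :=
  ∀ (A : Type u) (F : Type v) [CommRing A] [IsDomain A] [Field F] [Algebra A F]
    [FaithfulSMul A F] (n : ℕ) (x : Fin n → A), (∀ i, x i ≠ 0) →
    ∀ (T : Submonoid A) (t : ℕ) (J : ℕ → Ideal A) (a : ℕ → A),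
    (∀ i, i < t → a i ∈ (Ideal.span (Set.range x)).radical) →
    (∀ i, i < t → J i ≤ J (i + 1)) → (∀ i, i < t → a i ∈ J (i + 1)) →
    (∀ i, i < t → ∀ w, a i * w ∈ J i → w ∈ J i) →
    (∀ i, i < t → ∀ w ∈ J (i + 1), ∃ s ∈ T, ∃ v, s * w - a i * v ∈ J i) →
    ∀ j, j < t → ∀ z : Finset (Fin n) → F, (∀ σ, z σ ∈ LJ x ⊤ σ) →
    (∀ σ, σ.card ≠ j → z σ = 0) → (∀ σ, cd z σ ∈ LJ x (J 0) σ) →
    ∃ s ∈ T, ∃ y : Finset (Fin n) → F, (∀ σ, y σ ∈ LJ x ⊤ σ) ∧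
      (∀ σ, σ.card + 1 ≠ j → y σ = 0) ∧
      ∀ σ, algebraMap A F s * z σ - cd y σ ∈ LJ x (J 0) σ

/-- homogeneous components of Laurent polynomials in `k(x)` -/
def Stmt_HCP : Prop :=
  ∀ (k : Type u) [Field k] (n : ℕ), ∃ π : ℤ → (Fr k n →ₗ[k] Fr k n),
    (∀ (m : ℤ) (σ : Finset (Fin n)) (J : Ideal (Pol k n)), HomIdeal J →
      ∀ z ∈ LJ (X : Fin n → Pol k n) J σ,
        π m z ∈ LJ (X : Fin n → Pol k n) J σ ∧ π m z ∈ HF k n m) ∧
    (∀ (m : ℤ) (σ : Finset (Fin n)), ∀ z ∈ LJ (X : Fin n → Pol k n) ⊤ σ, z ∈ HF k n m →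
      π m z = z ∧ ∀ m', m' ≠ m → π m' z = 0) ∧
    ∀ (m : ℤ) (σ : Finset (Fin n)), ∀ z ∈ LJ (X : Fin n → Pol k n) ⊤ σ, ∀ (d : ℕ)
      (w : Pol k n), w.IsHomogeneous d → π (m + d) (inc k n w * z) = inc k n w * π m z

/-- the dimension of a graded ring is at most the height of the irrelevant ideal -/
def Stmt_DMM : Prop :=
  ∀ (k : Type u) [Field k] [CharZero k] (n : ℕ) (I : Ideal (Pol k n)) (d : ℕ), HomIdeal I →
    I ≠ ⊤ → ringKrullDim (Pol k n ⧸ I) = d →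
    ∀ (P : Ideal (Pol k n ⧸ I)) [P.IsPrime],
      P = Ideal.span (Set.range (fun i => Ideal.Quotient.mk I (X i))) →
      (d : WithBot ℕ∞) ≤ ringKrullDim (Localization.AtPrime P)

/-- a regular sequence in a local ring of `A ⧸ I`, as a chain of ideals of `A` -/
def Stmt_CHN : Prop :=
  ∀ (A : Type u) [CommRing A] (I : Ideal A) (P : Ideal (A ⧸ I)) [P.IsPrime]
    (rs : List (Localization.AtPrime P)),
    (∀ x ∈ rs, x ∈ IsLocalRing.maximalIdeal (Localization.AtPrime P)) →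
    RingTheory.Sequence.IsWeaklyRegular (Localization.AtPrime P) rs →
    ∃ (J : ℕ → Ideal A) (a : ℕ → A),
      (∀ i, i < rs.length → a i ∈ P.comap (Ideal.Quotient.mk I)) ∧
      (∀ i, i < rs.length → J i ≤ J (i + 1)) ∧ (∀ i, i < rs.length → a i ∈ J (i + 1)) ∧
      (∀ i, i < rs.length → ∀ w, a i * w ∈ J i → w ∈ J i) ∧
      (∀ i, i < rs.length → ∀ w ∈ J (i + 1), ∃ s, s ∉ P.comap (Ideal.Quotient.mk I) ∧ ∃ v,
        s * w - a i * v ∈ J i) ∧
      I ≤ J 0 ∧ ∀ w ∈ J 0, ∃ s, s ∉ P.comap (Ideal.Quotient.mk I) ∧ s * w ∈ I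

/-- a proper homogeneous ideal is contained in the irrelevant ideal -/
def Stmt_IRR : Prop :=
  ∀ (k : Type u) [Field k] (n : ℕ) (I : Ideal (Pol k n)), HomIdeal I → I ≠ ⊤ →
    I ≤ Ideal.span (Set.range (X : Fin n → Pol k n)) ∧
    (Ideal.span (Set.range (X : Fin n → Pol k n))).IsMaximal ∧
    (Ideal.span (Set.range (fun i => Ideal.Quotient.mk I (X i)))).IsPrime ∧
    (Ideal.span (Set.range (fun i => Ideal.Quotient.mk I (X i)))).comap (Ideal.Quotient.mk I) =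
      Ideal.span (Set.range (X : Fin n → Pol k n)) ∧
    ∀ w : Pol k n, w ∈ Ideal.span (Set.range (X : Fin n → Pol k n)) ↔ coeff 0 w = 0

/-- vanishing of the local cohomology of `S/I` below the depth -/
def Stmt_LCD : Prop :=
  ∀ (k : Type u) [Field k] [CharZero k] (n : ℕ) (I : Ideal (Pol k n)) (r d : ℕ), HomIdeal I →
    I ≠ ⊤ → SerreCond (Pol k n ⧸ I) r → ringKrullDim (Pol k n ⧸ I) = d →
    ∀ (m : ℤ) (j : ℕ), j < min r d → LCZero I j m

/-! ## Cohen–Macaulay -/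

/-- multiplication by `l` is injective modulo `J` -/
def Reg {A : Type u} [CommRing A] (J : Ideal A) (l : A) : Prop := ∀ w, l * w ∈ J → w ∈ J

/-- the ideal `I + (l_0, …, l_{i-1})` -/
def KI {A : Type u} [CommRing A] (I : Ideal A) (l : ℕ → A) (i : ℕ) : Ideal A :=
  I ⊔ Ideal.span (l '' {j | j < i})

/-- prime avoidance -/
def Stmt_PAV : Prop :=
  ∀ (k : Type u) [Field k] [CharZero k] (n : ℕ) (J : Ideal (Pol k n)), HomIdeal J →
    (∀ m : ℤ, LCZero J 0 m) → ∃ l : Pol k n, l.IsHomogeneous 1 ∧ Reg J l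

/-- vanishing of local cohomology modulo a regular linear form -/
def Stmt_DSC : Prop :=
  ∀ (k : Type u) [Field k] (n : ℕ) (J : Ideal (Pol k n)) (l : Pol k n) (t : ℕ), HomIdeal J →
    l.IsHomogeneous 1 → Reg J l → (∀ (j : ℕ) (m : ℤ), j < t + 1 → LCZero J j m) →
    HomIdeal (J ⊔ Ideal.span {l}) ∧
      ∀ (j : ℕ) (m : ℤ), j < t → LCZero (J ⊔ Ideal.span {l}) j m

/-- a regular sequence of linear forms -/
def Stmt_RLF : Prop :=
  ∀ (k : Type u) [Field k] [CharZero k] (n : ℕ) (I : Ideal (Pol k n)) (d : ℕ), HomIdeal I →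
    (∀ (j : ℕ) (m : ℤ), j < d → LCZero I j m) →
    ∃ l : ℕ → Pol k n, (∀ i, (l i).IsHomogeneous 1) ∧ ∀ i, i < d → Reg (KI I l i) (l i)

/-- the dimension drops to zero -/
def Stmt_FN1 : Prop :=
  ∀ (k : Type u) [Field k] (n : ℕ) (I : Ideal (Pol k n)) (d : ℕ) (l : ℕ → Pol k n),
    HomIdeal I → ringKrullDim (Pol k n ⧸ I) = d → (∀ i, (l i).IsHomogeneous 1) →
    (∀ i, i < d → Reg (KI I l i) (l i)) →
    ∃ N : ℕ, (Ideal.span (Set.range (X : Fin n → Pol k n))) ^ N ≤ KI I l d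

/-- graded Nakayama: finiteness over the subring generated by the linear forms -/
def Stmt_FN2 : Prop :=
  ∀ (k : Type u) [Field k] (n : ℕ) (I : Ideal (Pol k n)) (d : ℕ) (l : ℕ → Pol k n),
    HomIdeal I → (∀ i, (l i).IsHomogeneous 1) →
    (∃ N : ℕ, (Ideal.span (Set.range (X : Fin n → Pol k n))) ^ N ≤ KI I l d) →
    (MvPolynomial.aeval (R := k) (fun i : Fin d => Ideal.Quotient.mk I (l i))).toRingHom.Finite

/-- a basis of `S/K` consisting of monomials -/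
def Stmt_FB1 : Prop :=
  ∀ (k : Type u) [Field k] (n : ℕ) (K : Ideal (Pol k n)), ∃ B : Set (Fin n →₀ ℕ),
    (∀ w : Pol k n, ∃ c : (Fin n →₀ ℕ) →₀ k, (∀ s, c s ≠ 0 → s ∈ B) ∧
      w - c.sum (fun s f => monomial s f) ∈ K) ∧
    ∀ c : (Fin n →₀ ℕ) →₀ k, (∀ s, c s ≠ 0 → s ∈ B) → c.sum (fun s f => monomial s f) ∈ K →
      c = 0

/-- graded Nakayama: the monomials generate -/
def Stmt_FB2 : Prop :=
  ∀ (k : Type u) [Field k] (n : ℕ) (I : Ideal (Pol k n)) (d : ℕ) (l : ℕ → Pol k n)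
    (B : Set (Fin n →₀ ℕ)), HomIdeal I → (∀ i, (l i).IsHomogeneous 1) →
    (∀ w : Pol k n, ∃ c : (Fin n →₀ ℕ) →₀ k, (∀ s, c s ≠ 0 → s ∈ B) ∧
      w - c.sum (fun s f => monomial s f) ∈ KI I l d) →
    ∀ w : Pol k n, ∃ c : (Fin n →₀ ℕ) →₀ MvPolynomial (Fin d) k, (∀ s, c s ≠ 0 → s ∈ B) ∧
      w - c.sum (fun s f => aeval (fun i : Fin d => l i) f * monomial s 1) ∈ I

/-- the monomials are linearly independent over `k[l_0, …, l_{d-1}]` -/
def Stmt_FB3 : Prop :=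
  ∀ (k : Type u) [Field k] (n : ℕ) (I : Ideal (Pol k n)) (d : ℕ) (l : ℕ → Pol k n)
    (B : Set (Fin n →₀ ℕ)), (∀ i, i < d → Reg (KI I l i) (l i)) →
    (∀ c : (Fin n →₀ ℕ) →₀ k, (∀ s, c s ≠ 0 → s ∈ B) →
      c.sum (fun s f => monomial s f) ∈ KI I l d → c = 0) →
    ∀ c : (Fin n →₀ ℕ) →₀ MvPolynomial (Fin d) k, (∀ s, c s ≠ 0 → s ∈ B) →
      c.sum (fun s f => aeval (fun i : Fin d => l i) f * monomial s 1) ∈ I → c = 0

/-- flatness over the subring generated by the linear forms -/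
def Stmt_FLT : Prop :=
  ∀ (k : Type u) [Field k] (n : ℕ) (I : Ideal (Pol k n)) (d : ℕ) (l : ℕ → Pol k n),
    HomIdeal I → (∀ i, (l i).IsHomogeneous 1) → (∀ i, i < d → Reg (KI I l i) (l i)) →
    (MvPolynomial.aeval (R := k) (fun i : Fin d => Ideal.Quotient.mk I (l i))).toRingHom.Flat

/-- polynomial rings over Cohen–Macaulay rings are Cohen–Macaulay -/
def Stmt_CMX : Prop :=
  ∀ (A : Type u) [CommRing A] [IsNoetherianRing A], CM A → CM (Polynomial A)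

/-- invariance under isomorphisms -/
def Stmt_CMI : Prop :=
  ∀ (A B : Type u) [CommRing A] [CommRing B], Nonempty (A ≃+* B) → CM A → CM B

/-- polynomial rings over fields are Cohen–Macaulay -/
def Stmt_CMV : Prop := ∀ (k : Type u) [Field k] (d : ℕ), CM (MvPolynomial (Fin d) k)

/-- finite flat extensions of Cohen–Macaulay rings are Cohen–Macaulay -/
def Stmt_CMF : Prop :=
  ∀ (A R : Type u) [CommRing A] [CommRing R] [IsNoetherianRing A] (φ : A →+* R),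
    φ.Finite → φ.Flat → CM A → CM R

end

end Pool.Agent.DBX.CMD
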