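import Pool.Agent.DBX.CMD.Stmts

set_option autoImplicit false

namespace Pool.Agent.DBX.CMD

open MvPolynomial Pool.Agent.DBX

universe u v

namespace LJX_

variable {k : Type u} [Field k] {n : ℕ}

lemma am (w : Pol k n) : algebraMap (Pol k n) (Fr k n) w = inc k n w := rfl

lemma mul_mem_LJ {J : Ideal (Pol k n)} {σ : Finset (Fin n)} {z z' : Fr k n}
    (h : z ∈ LJ (X : Fin n → Pol k n) ⊤ σ) (h' : z' ∈ LJ (X : Fin n → Pol k n) J σ) :
    z * z' ∈ LJ (X : Fin n → Pol k n) J σ := by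
  obtain ⟨N, w, -, hw⟩ := h
  obtain ⟨N', w', hw', hw''⟩ := h'
  refine ⟨N + N', w * w', J.mul_mem_left _ hw', ?_⟩
  rw [pow_add, map_mul, map_mul, ← hw, ← hw'']
  ring

lemma prod_ne (σ : Finset (Fin n)) : inc k n (∏ a ∈ σ, X a) ≠ 0 := by
  apply inc_ne
  exact Finset.prod_ne_zero_iff.2 fun a _ => X_ne_zero a

lemma inv_mem (σ : Finset (Fin n)) (N : ℕ) :
    ((inc k n (∏ a ∈ σ, X a))⁻¹) ^ N ∈ Sl k n σ := by
  apply Subalgebra.pow_mem
  rw [map_prod, ← Finset.prod_inv_distrib]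
  apply Subalgebra.prod_mem
  intro a ha
  exact Algebra.subset_adjoin (Or.inr ⟨a, ha, rfl⟩)

lemma eq_of {σ : Finset (Fin n)} {N : ℕ} {w : Pol k n} {z : Fr k n}
    (h : algebraMap (Pol k n) (Fr k n) ((∏ a ∈ σ, X a) ^ N) * z = algebraMap (Pol k n) (Fr k n) w) :
    z = ((inc k n (∏ a ∈ σ, X a))⁻¹) ^ N * inc k n w := by
  have h1 : (inc k n (∏ a ∈ σ, X a)) ^ N * z = inc k n w := by
    rw [← map_pow]; exact h
  have h2 := prod_ne (k := k) σ
  rw [← h1, ← mul_assoc, ← mul_pow, inv_mul_cancel₀ h2, one_pow, one_mul]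

lemma mem_iff (σ : Finset (Fin n)) (z : Fr k n) :
    z ∈ Sl k n σ ↔ z ∈ LJ (X : Fin n → Pol k n) ⊤ σ := by
  constructor
  · intro h
    refine Algebra.adjoin_induction (p := fun z _ => z ∈ LJ (X : Fin n → Pol k n) ⊤ σ)
      ?_ ?_ ?_ ?_ h
    · rintro x (⟨w, rfl⟩ | ⟨a, ha, rfl⟩)
      · exact ⟨0, w, trivial, by rw [pow_zero, map_one, one_mul]⟩
      · refine ⟨1, ∏ b ∈ σ.erase a, X b, trivial, ?_⟩
        rw [pow_one, ← Finset.mul_prod_erase σ _ ha, map_mul, am, am]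
        have h2 : inc k n (X a) ≠ 0 := inc_ne (X_ne_zero a)
        field_simp
    · intro r
      refine ⟨0, C r, trivial, ?_⟩
      rw [pow_zero, map_one, one_mul]
      rfl
    · intro x y _ _ hx hy
      exact Submodule.add_mem _ hx hy
    · intro x y _ _ hx hy
      exact mul_mem_LJ hx hy
  · rintro ⟨N, w, -, hw⟩
    rw [eq_of hw]
    exact Subalgebra.mul_mem _ (inv_mem σ N) (Algebra.subset_adjoin (Or.inl ⟨w, rfl⟩))

end LJX_

open LJX_ in
theorem ljx_proof : Stmt_LJX.{u} := by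
  intro k _ n σ
  refine ⟨mem_iff σ, ?_⟩
  intro J z
  constructor
  · rintro ⟨y, hy, rfl⟩
    have hy' : y ∈ genIn (Sl k n σ) (inc k n '' (J : Set (Pol k n))) := hy
    unfold genIn at hy'
    show (y : Fr k n) ∈ LJ (X : Fin n → Pol k n) J σ
    refine Submodule.span_induction (p := fun (y : Sl k n σ) _ => (y : Fr k n) ∈
      LJ (X : Fin n → Pol k n) J σ) ?_ ?_ ?_ ?_ hy'
    · rintro x ⟨w, hw, hx⟩
      rw [← hx]
      exact ⟨0, w, hw, by rw [pow_zero, map_one, one_mul]⟩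
    · exact Submodule.zero_mem _
    · intro x y _ _ hx hy
      exact Submodule.add_mem _ hx hy
    · intro a x _ hx
      exact mul_mem_LJ ((mem_iff σ _).1 a.2) hx
  · rintro ⟨N, w, hw, h⟩
    have h1 : inc k n w ∈ Sl k n σ := Algebra.subset_adjoin (Or.inl ⟨w, rfl⟩)
    refine ⟨⟨((inc k n (∏ a ∈ σ, X a))⁻¹) ^ N, inv_mem σ N⟩ * ⟨inc k n w, h1⟩, ?_, ?_⟩
    · show _ ∈ genIn (Sl k n σ) (inc k n '' (J : Set (Pol k n)))
      exact Ideal.mul_mem_left _ _ (Ideal.subset_span ⟨w, hw, rfl⟩)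
    · rw [eq_of h]
      rfl

end Pool.Agent.DBX.CMD
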