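import Pool.Agent.DBX.CMD.Stmts

set_option autoImplicit false

namespace Pool.Agent.DBX.CMD

open MvPolynomial Pool.Agent.DBX

noncomputable section

universe u v

namespace RSQ_

section
variable {A : Type u} {F : Type v} [CommRing A] [Field F] [Algebra A F] {n : ℕ} {x : Fin n → A}

theorem mem_LJ {J : Ideal A} {σ : Finset (Fin n)} {z : F} :
    z ∈ LJ x J σ ↔ ∃ (N : ℕ) (w : A), w ∈ J ∧
      algebraMap A F ((∏ a ∈ σ, x a) ^ N) * z = algebraMap A F w := Iff.rfl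

theorem mono_J {J J' : Ideal A} (h : J ≤ J') (σ : Finset (Fin n)) :
    LJ (F := F) x J σ ≤ LJ x J' σ := by
  rintro z ⟨N, w, hw, e⟩
  exact ⟨N, w, h hw, e⟩

theorem mono_σ (J : Ideal A) {σ σ' : Finset (Fin n)} (h : σ ⊆ σ') :
    LJ (F := F) x J σ ≤ LJ x J σ' := by
  rintro z ⟨N, w, hw, e⟩
  refine ⟨N, (∏ a ∈ σ' \ σ, x a) ^ N * w, J.mul_mem_left _ hw, ?_⟩
  rw [← Finset.prod_sdiff h, mul_pow, map_mul, map_mul, ← e]
  ring

theorem cd_LJ (J : Ideal A) {z : Finset (Fin n) → F} (hz : ∀ σ, z σ ∈ LJ x J σ)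
    (σ : Finset (Fin n)) : cd z σ ∈ LJ x J σ := by
  rw [cd_apply]
  refine Submodule.sum_mem _ (fun v _ => ?_)
  exact zsmul_mem (mono_σ J (Finset.erase_subset v σ) (hz _)) _

theorem smul_top {J : Ideal A} {a : A} (ha : a ∈ J) {σ : Finset (Fin n)} {z : F}
    (hz : z ∈ LJ x ⊤ σ) : a • z ∈ LJ x J σ := by
  obtain ⟨N, w, -, e⟩ := hz
  refine ⟨N, a * w, J.mul_mem_right _ ha, ?_⟩
  rw [map_mul, ← e, Algebra.smul_def]
  ring

theorem regular [IsDomain A] [FaithfulSMul A F] {J : Ideal A} {a : A}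
    (ha : ∀ w, a * w ∈ J → w ∈ J) {σ : Finset (Fin n)} {z : F}
    (hz : z ∈ LJ x ⊤ σ) (haz : a • z ∈ LJ x J σ) : z ∈ LJ x J σ := by
  obtain ⟨N, w, -, e⟩ := hz
  obtain ⟨M, v, hv, e'⟩ := haz
  refine ⟨N + M, (∏ a ∈ σ, x a) ^ M * w, ?_, ?_⟩
  · apply ha
    have : a * ((∏ a ∈ σ, x a) ^ M * w) = (∏ a ∈ σ, x a) ^ N * v := by
      apply FaithfulSMul.algebraMap_injective A F
      rw [map_mul, map_mul, ← e, map_mul, ← e', Algebra.smul_def]
      ring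
    rw [this]
    exact J.mul_mem_left _ hv
  · rw [pow_add, map_mul, map_mul, ← e]
    ring

/-- common multiplier for finitely many sets -/
theorem common {J J1 : Ideal A} {a : A} {T : Submonoid A}
    (hP : ∀ σ : Finset (Fin n), algebraMap A F (∏ a ∈ σ, x a) ≠ 0)
    (hT : ∀ w ∈ J1, ∃ s ∈ T, ∃ v, s * w - a * v ∈ J) (j : ℕ)
    (y : Finset (Fin n) → F) (hy : ∀ σ, y σ ∈ LJ x J1 σ) (hs : ∀ σ, σ.card + 1 ≠ j → y σ = 0) :
    ∃ s ∈ T, ∃ v : Finset (Fin n) → F, (∀ σ, v σ ∈ LJ x ⊤ σ) ∧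
      (∀ σ, σ.card + 1 ≠ j → v σ = 0) ∧ ∀ σ, s • y σ - a • v σ ∈ LJ x J σ := by
  classical
  have h1 : ∀ σ : Finset (Fin n), ∃ s ∈ T, ∃ v : F, v ∈ LJ x ⊤ σ ∧ (σ.card + 1 ≠ j → v = 0) ∧
      s • y σ - a • v ∈ LJ x J σ := by
    intro σ
    by_cases hσ : σ.card + 1 = j
    · obtain ⟨N, w, hw, e⟩ := hy σ
      obtain ⟨s, hsT, v, hv⟩ := hT w hw
      have hPN : algebraMap A F ((∏ a ∈ σ, x a) ^ N) ≠ 0 := by
        rw [map_pow]; exact pow_ne_zero _ (hP σ)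
      refine ⟨s, hsT, (algebraMap A F ((∏ a ∈ σ, x a) ^ N))⁻¹ * algebraMap A F v, ?_, ?_, ?_⟩
      · refine ⟨N, v, trivial, ?_⟩
        rw [← mul_assoc, mul_inv_cancel₀ hPN, one_mul]
      · intro h; exact absurd hσ h
      · refine ⟨N, s * w - a * v, hv, ?_⟩
        rw [map_sub, map_mul, map_mul, ← e, Algebra.smul_def, Algebra.smul_def, mul_sub]
        congr 1
        · ring
        · rw [mul_left_comm, ← mul_assoc (algebraMap A F ((∏ a ∈ σ, x a) ^ N)),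
            mul_inv_cancel₀ hPN, one_mul]
    · refine ⟨1, T.one_mem, 0, Submodule.zero_mem _, fun _ => rfl, ?_⟩
      rw [hs σ hσ, smul_zero, smul_zero, sub_zero]
      exact Submodule.zero_mem _
  choose s hsT v hv1 hv2 hv3 using h1
  refine ⟨∏ σ, s σ, T.prod_mem (fun σ _ => hsT σ),
    fun σ => (∏ σ' ∈ Finset.univ.erase σ, s σ') • v σ, ?_, ?_, ?_⟩
  · intro σ
    exact Submodule.smul_mem _ _ (hv1 σ)
  · intro σ h
    simp only [hv2 σ h, smul_zero]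
  · intro σ
    have h2 : (∏ σ, s σ) = (∏ σ' ∈ Finset.univ.erase σ, s σ') * s σ :=
      (Finset.prod_erase_mul _ _ (Finset.mem_univ σ)).symm
    have h3 := Submodule.smul_mem (LJ (F := F) x J σ) (∏ σ' ∈ Finset.univ.erase σ, s σ') (hv3 σ)
    rw [smul_sub, smul_smul, smul_comm, ← h2] at h3
    exact h3

end

/-- the statement for the inductive proof -/
def P (A : Type u) (F : Type v) [CommRing A] [Field F] [Algebra A F] (n : ℕ) (x : Fin n → A)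
    (T : Submonoid A) (J0 : Ideal A) (j : ℕ) : Prop :=
  ∀ z : Finset (Fin n) → F, (∀ σ, z σ ∈ LJ x ⊤ σ) →
    (∀ σ, σ.card ≠ j → z σ = 0) → (∀ σ, cd z σ ∈ LJ x J0 σ) →
    ∃ s ∈ T, ∃ y : Finset (Fin n) → F, (∀ σ, y σ ∈ LJ x ⊤ σ) ∧
      (∀ σ, σ.card + 1 ≠ j → y σ = 0) ∧ ∀ σ, s • z σ - cd y σ ∈ LJ x J0 σ

theorem step {A : Type u} {F : Type v} [CommRing A] [IsDomain A] [Field F] [Algebra A F]
    [FaithfulSMul A F] {n : ℕ} {x : Fin n → A}
    (hP : ∀ σ : Finset (Fin n), algebraMap A F (∏ a ∈ σ, x a) ≠ 0) (T : Submonoid A)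
    (J0 J1 : Ideal A) (a : A) (h01 : J0 ≤ J1) (ha1 : a ∈ J1) (hreg : ∀ w, a * w ∈ J0 → w ∈ J0)
    (hT : ∀ w ∈ J1, ∃ s ∈ T, ∃ v, s * w - a * v ∈ J0) (j : ℕ)
    (IH : ∀ j', j' + 1 = j → P A F n x T J1 j')
    (z : Finset (Fin n) → F) (hz : ∀ σ, z σ ∈ LJ x ⊤ σ)
    (y : Finset (Fin n) → F) (hy : ∀ σ, y σ ∈ LJ x ⊤ σ) (hys : ∀ σ, σ.card + 1 ≠ j → y σ = 0)
    (hzy : ∀ σ, a • z σ - cd y σ ∈ LJ x J0 σ) :
    ∃ s ∈ T, ∃ y' : Finset (Fin n) → F, (∀ σ, y' σ ∈ LJ x ⊤ σ) ∧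
      (∀ σ, σ.card + 1 ≠ j → y' σ = 0) ∧ ∀ σ, s • z σ - cd y' σ ∈ LJ x J0 σ := by
  rcases j with _ | j'
  · have hy0 : y = 0 := by
      funext σ
      exact hys σ (by omega)
    refine ⟨1, T.one_mem, 0, fun σ => Submodule.zero_mem _, fun _ _ => rfl, fun σ => ?_⟩
    have := hzy σ
    rw [hy0, cd_zero, Pi.zero_apply, sub_zero] at this
    rw [cd_zero, Pi.zero_apply, sub_zero, one_smul]
    exact regular hreg (hz σ) this
  · have hys' : ∀ σ : Finset (Fin n), σ.card ≠ j' → y σ = 0 :=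
      fun σ h => hys σ (by omega)
    have hcy : ∀ σ, cd y σ ∈ LJ x J1 σ := by
      intro σ
      have h1 := mono_J h01 σ (hzy σ)
      have h2 := smul_top ha1 (hz σ)
      have h3 := Submodule.sub_mem _ h2 h1
      rwa [sub_sub_cancel] at h3
    obtain ⟨s, hs, y2, hy2, hy2s, hy2e⟩ := IH j' rfl y hy hys' hcy
    have hsupp : ∀ σ : Finset (Fin n), σ.card + 1 ≠ j' + 1 → (s • y - cd y2) σ = 0 := by
      intro σ h
      rw [Pi.sub_apply, Pi.smul_apply, hys' σ (by omega), smul_zero, zero_sub, neg_eq_zero]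
      rw [cd_apply]
      refine Finset.sum_eq_zero (fun v hv => ?_)
      rw [hy2s, smul_zero]
      rw [Finset.card_erase_of_mem hv]
      have := Finset.card_pos.2 ⟨v, hv⟩
      omega
    obtain ⟨s', hs', v, hv1, hv2, hv3⟩ := common (F := F) hP hT (j' + 1) (s • y - cd y2)
      (fun σ => hy2e σ) hsupp
    refine ⟨s' * s, T.mul_mem hs' hs, v, hv1, hv2, fun σ => ?_⟩
    have h4 := cd_LJ J0 (z := s' • (s • y - cd y2) - a • v) (fun σ => hv3 σ) σ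
    rw [cd_sub, cd_smul, cd_sub, cd_smul, cd_cd, sub_zero, cd_smul] at h4
    have h5 := Submodule.smul_mem _ (s' * s) (hzy σ)
    have h6 := Submodule.add_mem _ h5 h4
    have h7 : a • ((s' * s) • z σ - cd v σ) ∈ LJ x J0 σ := by
      have e : a • ((s' * s) • z σ - cd v σ) =
          (s' * s) • (a • z σ - cd y σ) + (s' • s • cd y - a • cd v) σ := by
        simp only [Pi.sub_apply, Pi.smul_apply, smul_sub, smul_smul]
        rw [mul_comm a (s' * s)]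
        abel
      rw [e]
      exact h6
    refine regular hreg ?_ h7
    exact Submodule.sub_mem _ (Submodule.smul_mem _ _ (hz σ)) (cd_LJ ⊤ hv1 σ)

theorem pow_step {A : Type u} {F : Type v} [CommRing A] [IsDomain A] [Field F] [Algebra A F]
    [FaithfulSMul A F] {n : ℕ} {x : Fin n → A}
    (hP : ∀ σ : Finset (Fin n), algebraMap A F (∏ a ∈ σ, x a) ≠ 0) (T : Submonoid A)
    (J0 J1 : Ideal A) (a : A) (h01 : J0 ≤ J1) (ha1 : a ∈ J1) (hreg : ∀ w, a * w ∈ J0 → w ∈ J0)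
    (hT : ∀ w ∈ J1, ∃ s ∈ T, ∃ v, s * w - a * v ∈ J0) (j : ℕ)
    (IH : ∀ j', j' + 1 = j → P A F n x T J1 j') (K : ℕ) :
    ∀ (z : Finset (Fin n) → F), (∀ σ, z σ ∈ LJ x ⊤ σ) →
    ∀ (y : Finset (Fin n) → F), (∀ σ, y σ ∈ LJ x ⊤ σ) → (∀ σ, σ.card + 1 ≠ j → y σ = 0) →
    (∀ σ, a ^ K • z σ - cd y σ ∈ LJ x J0 σ) →
    ∃ s ∈ T, ∃ y' : Finset (Fin n) → F, (∀ σ, y' σ ∈ LJ x ⊤ σ) ∧
      (∀ σ, σ.card + 1 ≠ j → y' σ = 0) ∧ ∀ σ, s • z σ - cd y' σ ∈ LJ x J0 σ := by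
  induction K with
  | zero =>
    intro z hz y hy hys h
    exact ⟨1, T.one_mem, y, hy, hys, fun σ => by simpa using h σ⟩
  | succ K ih =>
    intro z hz y hy hys h
    obtain ⟨s, hs, y1, hy1, hy1s, hy1e⟩ := step hP T J0 J1 a h01 ha1 hreg hT j IH (a ^ K • z)
      (fun σ => Submodule.smul_mem _ _ (hz σ)) y hy hys (fun σ => by
        have := h σ
        rw [pow_succ', mul_smul] at this
        exact this)
    obtain ⟨s2, hs2, y2, hy2, hy2s, hy2e⟩ := ih (s • z)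
      (fun σ => Submodule.smul_mem _ _ (hz σ)) y1 hy1 hy1s (fun σ => by
        have := hy1e σ
        rw [Pi.smul_apply, smul_comm] at this
        exact this)
    refine ⟨s2 * s, T.mul_mem hs2 hs, y2, hy2, hy2s, fun σ => ?_⟩
    have := hy2e σ
    rwa [Pi.smul_apply, smul_smul] at this

theorem main (hTOR : Stmt_TOR.{u, v}) (A : Type u) (F : Type v) [CommRing A] [IsDomain A]
    [Field F] [Algebra A F] [FaithfulSMul A F] (n : ℕ) (x : Fin n → A) (hx : ∀ i, x i ≠ 0)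
    (hP : ∀ σ : Finset (Fin n), algebraMap A F (∏ a ∈ σ, x a) ≠ 0)
    (T : Submonoid A) (t : ℕ) : ∀ (J : ℕ → Ideal A) (a : ℕ → A),
    (∀ i, i < t → a i ∈ (Ideal.span (Set.range x)).radical) →
    (∀ i, i < t → J i ≤ J (i + 1)) → (∀ i, i < t → a i ∈ J (i + 1)) →
    (∀ i, i < t → ∀ w, a i * w ∈ J i → w ∈ J i) →
    (∀ i, i < t → ∀ w ∈ J (i + 1), ∃ s ∈ T, ∃ v, s * w - a i * v ∈ J i) →
    ∀ j, j < t → P A F n x T (J 0) j := by
  induction t with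
  | zero =>
    intro J a _ _ _ _ _ j hj
    exact absurd hj (Nat.not_lt_zero j)
  | succ t ih =>
    intro J a h1 h2 h3 h4 h5 j hj z hz hzs hcz
    have IH : ∀ j', j' + 1 = j → P A F n x T (J 1) j' := by
      intro j' hj'
      exact ih (fun i => J (i + 1)) (fun i => a (i + 1))
        (fun i hi => h1 (i + 1) (by omega)) (fun i hi => h2 (i + 1) (by omega))
        (fun i hi => h3 (i + 1) (by omega)) (fun i hi => h4 (i + 1) (by omega))
        (fun i hi => h5 (i + 1) (by omega)) j' (by omega)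
    obtain ⟨K, y, hy, hys, hye⟩ := hTOR A F n x hx (J 0) (a 0) (h1 0 (by omega)) j z hz hzs hcz
    exact pow_step hP T (J 0) (J 1) (a 0) (h2 0 (by omega)) (h3 0 (by omega)) (h4 0 (by omega))
      (h5 0 (by omega)) j IH K z hz y hy hys (fun σ => by
        rw [Algebra.smul_def]; exact hye σ)

end RSQ_

open RSQ_ in
theorem rsq_proof (hTOR : Stmt_TOR.{u, v}) : Stmt_RSQ.{u, v} := by
  intro A F _ _ _ _ _ n x hx T t J a h1 h2 h3 h4 h5 j hj z hz hzs hcz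
  have hP : ∀ σ : Finset (Fin n), algebraMap A F (∏ a ∈ σ, x a) ≠ 0 := by
    intro σ h
    have h' : (∏ a ∈ σ, x a) = 0 := by
      apply FaithfulSMul.algebraMap_injective A F
      rw [h, map_zero]
    exact (Finset.prod_ne_zero_iff.2 (fun i _ => hx i)) h'
  obtain ⟨s, hs, y, hy, hys, hye⟩ := main hTOR A F n x hx hP T t J a h1 h2 h3 h4 h5 j hj z hz hzs hcz
  refine ⟨s, hs, y, hy, hys, fun σ => ?_⟩
  have := hye σ
  rwa [Algebra.smul_def] at this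

end

end Pool.Agent.DBX.CMD
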